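import Pool.Agent.H515.SP.Main
import Pool.Agent.Helper199.RepDim

/-!
# Semiproportional irreducible characters of different degrees: the divisibility theorem
-/

set_option autoImplicit false
set_option linter.style.haveILetI false
set_option linter.unusedSectionVars false

open scoped BigOperators
open CategoryTheory Pool.Agent.H254R3.IN

noncomputable section

namespace Pool.Agent.H515.SP

variable {G : Type} [Group G] [Fintype G] {φ ψ t : G → ℂ} {M : Set G} {r s d : ℕ}

namespace Pr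

/-- every prime divisor of `r² + s²` divides `|G| / (r s d (r² + s²))` -/
theorem rad_dvd (h : Pr φ ψ t M r s d) (hrs : r ≠ s) :
    (∏ p ∈ (r ^ 2 + s ^ 2).primeFactors, p) * (r * s * d * (r ^ 2 + s ^ 2)) ∣ Nat.card G := by
  obtain ⟨c, hc⟩ := h.dvd_card
  have hnpos : 0 < r ^ 2 + s ^ 2 := by have := h.rpos; positivity
  have key : ∀ p ∈ (r ^ 2 + s ^ 2).primeFactors, p ∣ c := by
    intro p hp
    have hpp := Nat.prime_of_mem_primeFactors hp
    have hpn := Nat.dvd_of_mem_primeFactors hp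
    haveI : Fact p.Prime := ⟨hpp⟩
    by_contra hpc
    obtain ⟨O, hO⟩ := exists_O p hpp
    have hpr : ¬ p ∣ r := by
      intro hr'
      have h1 : p ∣ s ^ 2 := (Nat.dvd_add_right (dvd_pow hr' two_ne_zero)).mp hpn
      have h2 : p ∣ s := hpp.dvd_of_dvd_pow h1
      have h3 := Nat.dvd_gcd hr' h2
      rw [h.cop] at h3
      exact hpp.one_lt.ne' (Nat.dvd_one.mp h3)
    have hps : ¬ p ∣ s := by
      intro hs'
      have h1 : p ∣ r ^ 2 := (Nat.dvd_add_left (dvd_pow hs' two_ne_zero)).mp hpn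
      exact hpr (hpp.dvd_of_dvd_pow h1)
    have hrsc : ¬ p ∣ r * s * c := by
      intro hd
      rcases hpp.dvd_mul.mp hd with h1 | h1
      · rcases hpp.dvd_mul.mp h1 with h2 | h2
        · exact hpr h2
        · exact hps h2
      · exact hpc h1
    apply h.not_block hrs hpn hO
    have e : ((r : ℂ) ^ 2 + s ^ 2) * d / Nat.card G = ((r * s * c : ℕ) : ℂ)⁻¹ := by
      have hcG : (Nat.card G : ℂ) = (r * s * d * (r ^ 2 + s ^ 2)) * c := by
        rw [hc]; push_cast; ring
      have hc0 : (c : ℂ) ≠ 0 := by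
        intro h0
        rw [h0, mul_zero] at hcG
        exact cardG_ne G hcG
      have := h.rc
      have := h.sc
      have := h.dc
      have := h.nc
      rw [hcG]
      push_cast
      field_simp
    rw [e]
    exact nat_inv_mem hO hrsc
  have h1 : (∏ p ∈ (r ^ 2 + s ^ 2).primeFactors, p) ∣ c :=
    Finset.prod_primes_dvd c (fun p hp => (Nat.prime_of_mem_primeFactors hp).prime) key
  rw [hc, mul_comm]
  exact mul_dvd_mul_left _ h1

end Pr

/-- the character of a simple object is irreducible -/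
lemma isIrr_of_simple (V : FDRep ℂ G) (hV : Simple V) : IsIrr V.character := by
  haveI := hV
  refine ⟨V, inferInstance, inferInstance, inferInstance, V.ρ, ?_, rfl⟩
  haveI : Nontrivial (Subrepresentation V.ρ) := by
    refine ⟨⊥, ⊤, ?_⟩
    intro h
    obtain ⟨v, hv⟩ := Pool.Agent.Helper199.RepDim.simple_nonzero V
    have h1 : (⊥ : Submodule ℂ V) = ⊤ :=
      congrArg Subrepresentation.toSubmodule h
    have h2 : v ∈ (⊥ : Submodule ℂ V) := by rw [h1]; trivial
    exact hv ((Submodule.mem_bot ℂ).mp h2)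
  refine ⟨fun S => ?_⟩
  by_cases hS : S.toSubmodule = ⊥
  · left
    apply Subrepresentation.toSubmodule_injective
    exact hS
  · right
    apply Subrepresentation.toSubmodule_injective
    exact Pool.Agent.Helper199.RepDim.simple_top V S.toSubmodule
      (fun g w hw => S.apply_mem_toSubmodule g hw) hS

/-- A semiproportional pair of simple representations in normal form. -/
theorem exists_pr_of_semi (V W : FDRep ℂ G) (hV : Simple V) (hW : Simple W)
    (hnp : ¬ ∃ a b : ℂ, (a ≠ 0 ∨ b ≠ 0) ∧ ∀ g : G, a * V.character g = b * W.character g)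
    (hsp : ∃ M : Set G, (∀ g h : G, g ∈ M → h * g * h⁻¹ ∈ M) ∧
        (∃ a b : ℂ, (a ≠ 0 ∨ b ≠ 0) ∧ ∀ g : G, g ∈ M → a * V.character g = b * W.character g) ∧
        (∃ a b : ℂ, (a ≠ 0 ∨ b ≠ 0) ∧ ∀ g : G, g ∉ M → a * V.character g = b * W.character g)) :
    ∃ (t : G → ℂ) (M : Set G) (r s d : ℕ), Pr V.character W.character t M r s d := by
  obtain ⟨M, hMc, ⟨a, b, hab, h1⟩, ⟨a', b', hab', h2⟩⟩ := hsp
  have hne : V.character ≠ W.character := by
    intro h
    exact hnp ⟨1, 1, Or.inl one_ne_zero, fun g => by rw [h]⟩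
  by_cases h1M : (1 : G) ∈ M
  · obtain ⟨t, r, s, d, h⟩ := exists_Pr (isIrr_of_simple V hV) (isIrr_of_simple W hW) hne M h1M hMc
      a b a' b' hab h1 hab' h2
    exact ⟨t, M, r, s, d, h⟩
  · have hMc' : ∀ g h : G, g ∈ Mᶜ → h * g * h⁻¹ ∈ Mᶜ := by
      intro g h hg hk
      apply hg
      have := hMc _ h⁻¹ hk
      have e : h⁻¹ * (h * g * h⁻¹) * h⁻¹⁻¹ = g := by group
      rwa [e] at this
    obtain ⟨t, r, s, d, h⟩ := exists_Pr (isIrr_of_simple V hV) (isIrr_of_simple W hW) hne Mᶜ h1M hMc'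
      a' b' a b hab' (fun g hg => h2 g hg) hab (fun g hg => h1 g (not_not.mp hg))
    exact ⟨t, Mᶜ, r, s, d, h⟩

/-- a number `> 2` that is a sum of two coprime squares has a prime divisor `≡ 1 (mod 4)` -/
lemma exists_prime_one_mod_four {r s : ℕ} (hcop : Nat.Coprime r s) (hr : 0 < r) (hs : 0 < s)
    (hrs : r ≠ s) : ∃ p ∈ (r ^ 2 + s ^ 2).primeFactors, p % 4 = 1 := by
  have hsq : IsSquare (-1 : ZMod (r ^ 2 + s ^ 2)) :=
    ZMod.isSquare_neg_one_of_eq_sq_add_sq_of_coprime rfl hcop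
  have h4 : ¬ 4 ∣ r ^ 2 + s ^ 2 := by
    intro h
    have h2 : ¬ (2 ∣ r ∧ 2 ∣ s) := by
      rintro ⟨h1, h2⟩
      have := Nat.dvd_gcd h1 h2
      rw [hcop] at this
      omega
    have e1 : r % 4 = 0 ∨ r % 4 = 1 ∨ r % 4 = 2 ∨ r % 4 = 3 := by omega
    have e2 : s % 4 = 0 ∨ s % 4 = 1 ∨ s % 4 = 2 ∨ s % 4 = 3 := by omega
    have h3 : (r ^ 2 + s ^ 2) % 4 = 0 := Nat.mod_eq_zero_of_dvd h
    rcases e1 with e1 | e1 | e1 | e1 <;> rcases e2 with e2 | e2 | e2 | e2 <;>
      simp [Nat.add_mod, Nat.pow_mod, e1, e2] at h3 <;> omega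
  have hgt : 2 < r ^ 2 + s ^ 2 := by
    rcases Nat.lt_or_gt_of_ne hrs with h | h
    · have : 2 ≤ s := by omega
      nlinarith
    · have : 2 ≤ r := by omega
      nlinarith
  -- an odd prime divisor
  obtain ⟨p, hp, hpd, hp2⟩ : ∃ p : ℕ, p.Prime ∧ p ∣ r ^ 2 + s ^ 2 ∧ p ≠ 2 := by
    by_contra hcon
    push Not at hcon
    have hpow : r ^ 2 + s ^ 2 = 2 ^ (r ^ 2 + s ^ 2).primeFactorsList.length :=
      Nat.eq_prime_pow_of_unique_prime_dvd (by omega) fun {q} hq hqd => hcon q hq hqd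
    set k := (r ^ 2 + s ^ 2).primeFactorsList.length with hk
    rcases Nat.lt_or_ge k 2 with h | h
    · interval_cases k <;> omega
    · apply h4
      rw [hpow]
      exact pow_dvd_pow 2 h
  refine ⟨p, Nat.mem_primeFactors.mpr ⟨hp, hpd, by omega⟩, ?_⟩
  have h3 := Nat.mod_four_ne_three_of_mem_primeFactors_of_isSquare_neg_one
    (Nat.mem_primeFactors.mpr ⟨hp, hpd, by omega⟩) hsq
  have h1 : p % 2 = 1 := hp.eq_two_or_odd.resolve_left hp2
  omega

end Pool.Agent.H515.SP
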