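import Pool.Agent.H515.SP.RingE

/-!
# The dimension bound for the ideal generated by a central idempotent
-/

set_option autoImplicit false
set_option linter.style.haveILetI false

open scoped BigOperators Classical

noncomputable section

namespace Pool.Agent.H515.SP

variable {F R : Type} [Field F] [Ring R] [Algebra F R]

/-- the annihilator of a central element -/
def annI (e : R) (hc : ∀ x, e * x = x * e) : Ideal R where
  carrier := {x | e * x = 0}
  add_mem' := by
    intro x y hx hy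
    change e * (x + y) = 0
    rw [mul_add, show e * x = 0 from hx, show e * y = 0 from hy, add_zero]
  zero_mem' := mul_zero _
  smul_mem' := by
    intro c x hx
    change e * (c * x) = 0
    rw [← mul_assoc, hc, mul_assoc, show e * x = 0 from hx, mul_zero]

lemma mem_annI {e : R} {hc : ∀ x, e * x = x * e} {x : R} : x ∈ annI e hc ↔ e * x = 0 := Iff.rfl

instance annI_two (e : R) (hc : ∀ x, e * x = x * e) : (annI e hc).IsTwoSided := by
  constructor
  intro a b ha
  rw [mem_annI] at ha ⊢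
  rw [← mul_assoc, ha, zero_mul]

theorem central_bound [IsAlgClosed F] [FiniteDimensional F R] (e : R) (he : e * e = e)
    (hc : ∀ x, e * x = x * e) (ρ : R →ₗ[F] F) (hρ : IsTr ρ)
    (hnd : ∀ x, (∀ y, ρ (x * y) = 0) → x = 0) (z : R) (hz0 : z ≠ 0) (hez : e * z = z)
    (hzc : ∀ x, z * x = x * z) (hzn : z * z = 0)
    (hfew : ∀ f g h : R →ₗ[F] F, IsTr f → IsTr g → IsTr h → (∀ x, f (e * x) = f x) →
      (∀ x, g (e * x) = g x) → (∀ x, h (e * x) = h x) →
      ∃ a b c : F, (a ≠ 0 ∨ b ≠ 0 ∨ c ≠ 0) ∧ ∀ x, a * f x + b * g x + c * h x = 0) :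
    ∃ a : ℕ, 0 < a ∧ Module.finrank F (LinearMap.range (LinearMap.mulLeft F e)) ≤ 2 * a ^ 2 ∧
      ∀ (X : Type) [AddCommGroup X] [Module F X] [FiniteDimensional F X]
        (τ : R →ₐ[F] Module.End F X), τ e = 1 → a ∣ Module.finrank F X := by
  set I : Ideal R := annI e hc with hI
  let q : R →ₐ[F] (R ⧸ I) := Ideal.Quotient.mkₐ F I
  have hqs : Function.Surjective q := Ideal.Quotient.mk_surjective
  have hq0 : ∀ x, q x = 0 ↔ e * x = 0 := fun x => Ideal.Quotient.eq_zero_iff_mem
  have hqe : ∀ x, q (e * x) = q x := by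
    intro x
    rw [← sub_eq_zero, ← map_sub, hq0, mul_sub, ← mul_assoc, he, sub_self]
  have hzq : q z ≠ 0 := by
    intro h
    rw [hq0, hez] at h
    exact hz0 h
  haveI : Nontrivial (R ⧸ I) := ⟨⟨q z, 0, hzq⟩⟩
  haveI : FiniteDimensional F (R ⧸ I) := Module.Finite.of_surjective q.toLinearMap hqs
  -- the trace form on the quotient
  let ρ' : (R ⧸ I) →ₗ[F] F :=
    (Submodule.liftQ (I.restrictScalars F) (ρ.comp (LinearMap.mulLeft F e)) (by
      intro x hx
      change ρ (e * x) = 0
      rw [show e * x = 0 from hx, map_zero])).comp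
      (Submodule.Quotient.restrictScalarsEquiv F I).symm.toLinearMap
  have hρ' : ∀ x, ρ' (q x) = ρ (e * x) := fun x => rfl
  have h1 : IsTr ρ' := by
    intro x y
    obtain ⟨x, rfl⟩ := hqs x
    obtain ⟨y, rfl⟩ := hqs y
    rw [← map_mul, ← map_mul, hρ', hρ', ← mul_assoc, hρ (e * x) y, ← mul_assoc, ← hc y, mul_assoc]
  have h2 : ∀ x, (∀ y, ρ' (x * y) = 0) → x = 0 := by
    intro x hx
    obtain ⟨x, rfl⟩ := hqs x
    rw [hq0]
    apply hnd
    intro y
    have := hx (q y)
    rw [← map_mul, hρ', ← mul_assoc] at this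
    exact this
  have h3 : FewTr F (R ⧸ I) := by
    intro f g h hf hg hh
    have key : ∀ f : (R ⧸ I) →ₗ[F] F, IsTr f → IsTr (f.comp q.toLinearMap) := by
      intro f hf x y
      change f (q (x * y)) = f (q (y * x))
      rw [map_mul q, map_mul q, hf]
    obtain ⟨a, b, c, hne, habc⟩ := hfew (f.comp q.toLinearMap) (g.comp q.toLinearMap)
      (h.comp q.toLinearMap) (key f hf) (key g hg) (key h hh)
      (fun x => congrArg f (hqe x)) (fun x => congrArg g (hqe x)) (fun x => congrArg h (hqe x))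
    refine ⟨a, b, c, hne, fun x => ?_⟩
    obtain ⟨x, rfl⟩ := hqs x
    exact habc x
  have h4 : ∀ x, q z * x = x * q z := by
    intro x
    obtain ⟨x, rfl⟩ := hqs x
    rw [← map_mul, ← map_mul, hzc]
  have h5 : IsNilpotent (q z) := ⟨2, by rw [pow_two, ← map_mul, hzn, map_zero]⟩
  obtain ⟨a, ha, hdim, hX⟩ := ring_bound ρ' h1 h2 (q z) hzq h4 h5 h3
  refine ⟨a, ha, le_trans ?_ hdim, ?_⟩
  · let L : LinearMap.range (LinearMap.mulLeft F e) →ₗ[F] (R ⧸ I) :=
      q.toLinearMap.comp (Submodule.subtype _)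
    apply LinearMap.finrank_le_finrank_of_injective (f := L)
    rw [injective_iff_map_eq_zero]
    rintro ⟨x, y, rfl⟩ hx
    have h6 : q (e * y) = 0 := hx
    rw [hq0, ← mul_assoc, he] at h6
    exact Subtype.ext h6
  · intro X _ _ _ τ hτ
    have hτI : ∀ x ∈ I, τ x = 0 := by
      intro x hx
      have h7 : e * x = 0 := hx
      have h8 : τ (e * x) = τ x := by rw [map_mul, hτ, one_mul]
      rw [← h8, h7, map_zero]
    exact hX X (Ideal.Quotient.liftₐ I τ hτI)

end Pool.Agent.H515.SP
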