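import Pool.Agent.H254R3.IN.PI
import Pool.Agent.R721.CD.Char

/-!
# Semiproportional irreducible characters: the shape of the pair
-/

set_option autoImplicit false
set_option linter.style.haveILetI false
set_option linter.unusedSectionVars false

open scoped BigOperators Classical
open Pool.Agent.H254R3.IN

noncomputable section

namespace Pool.Agent.H515.SP

variable {G : Type} [Group G] [Fintype G]

/-- the normal form of a semiproportional pair of irreducible characters -/
structure Pr (φ ψ t : G → ℂ) (M : Set G) (r s d : ℕ) : Prop where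
  irr1 : IsIrr φ
  irr2 : IsIrr ψ
  cop : Nat.Coprime r s
  rpos : 0 < r
  spos : 0 < s
  dpos : 0 < d
  deg1 : φ 1 = r * d
  deg2 : ψ 1 = s * d
  one_mem : (1 : G) ∈ M
  conj_mem : ∀ g h : G, g ∈ M → h * g * h⁻¹ ∈ M
  on1 : ∀ g ∈ M, φ g = r * t g
  on2 : ∀ g ∈ M, ψ g = s * t g
  off1 : ∀ g ∉ M, φ g = s * t g
  off2 : ∀ g ∉ M, ψ g = -(r * t g)
  tint : ∀ g, IsIntegral ℤ (t g)
  normM : (((r : ℂ) ^ 2 + s ^ 2)) * ∑ g ∈ Finset.univ.filter (· ∈ M), t g * (starRingEnd ℂ) (t g) =
    Nat.card G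
  normN : (((r : ℂ) ^ 2 + s ^ 2)) * ∑ g ∈ Finset.univ.filter (· ∉ M), t g * (starRingEnd ℂ) (t g) =
    Nat.card G

lemma star_inv {χ : G → ℂ} (h : IsIrr χ) (g : G) : χ g⁻¹ = (starRingEnd ℂ) (χ g) :=
  Pool.Agent.R721.CD.char_inv (Pool.Agent.R721.CD.IsRepChar.of_irr h) g

lemma orth_star {χ ψ : G → ℂ} (h1 : IsIrr χ) (h2 : IsIrr ψ) :
    ∑ g : G, χ g * (starRingEnd ℂ) (ψ g) = if χ = ψ then (Nat.card G : ℂ) else 0 := by
  rw [← orth_sum h1 h2]
  exact Finset.sum_congr rfl fun g _ => by rw [star_inv h2]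

lemma sum_split (M : Set G) (f : G → ℂ) :
    ∑ g, f g = ∑ g ∈ Finset.univ.filter (· ∈ M), f g + ∑ g ∈ Finset.univ.filter (· ∉ M), f g :=
  (Finset.sum_filter_add_sum_filter_not _ _ _).symm

lemma normSq_sum (S : Finset G) (f : G → ℂ) :
    ∑ g ∈ S, f g * (starRingEnd ℂ) (f g) = ((∑ g ∈ S, Complex.normSq (f g) : ℝ) : ℂ) := by
  rw [Complex.ofReal_sum]
  exact Finset.sum_congr rfl fun g _ => Complex.mul_conj _

theorem exists_Pr {φ ψ : G → ℂ} (hφ : IsIrr φ) (hψ : IsIrr ψ) (hne : φ ≠ ψ) (M : Set G)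
    (hM1 : (1 : G) ∈ M) (hMc : ∀ g h : G, g ∈ M → h * g * h⁻¹ ∈ M) (a b a' b' : ℂ)
    (hab : a ≠ 0 ∨ b ≠ 0) (h1 : ∀ g ∈ M, a * φ g = b * ψ g)
    (hab' : a' ≠ 0 ∨ b' ≠ 0) (h2 : ∀ g ∉ M, a' * φ g = b' * ψ g) :
    ∃ (t : G → ℂ) (r s d : ℕ), Pr φ ψ t M r s d := by
  obtain ⟨n1, hn1, e1⟩ := hφ.deg
  obtain ⟨n2, hn2, e2⟩ := hψ.deg
  set d := Nat.gcd n1 n2 with hd
  have hdpos : 0 < d := Nat.gcd_pos_of_pos_left _ hn1
  obtain ⟨r, hr⟩ : d ∣ n1 := Nat.gcd_dvd_left _ _
  obtain ⟨s, hs⟩ : d ∣ n2 := Nat.gcd_dvd_right _ _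
  have hcop : Nat.Coprime r s := by
    have := Nat.coprime_div_gcd_div_gcd (m := n1) (n := n2) hdpos
    rw [← hd] at this
    have e3 : n1 / d = r := by rw [hr]; exact Nat.mul_div_cancel_left _ hdpos
    have e4 : n2 / d = s := by rw [hs]; exact Nat.mul_div_cancel_left _ hdpos
    rwa [e3, e4] at this
  have hrpos : 0 < r := by
    rcases Nat.eq_zero_or_pos r with h | h
    · rw [h, mul_zero] at hr; omega
    · exact h
  have hspos : 0 < s := by
    rcases Nat.eq_zero_or_pos s with h | h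
    · rw [h, mul_zero] at hs; omega
    · exact h
  have hdeg1 : φ 1 = r * d := by rw [← e1, hr]; push_cast; ring
  have hdeg2 : ψ 1 = s * d := by rw [← e2, hs]; push_cast; ring
  have hrc : (r : ℂ) ≠ 0 := by exact_mod_cast hrpos.ne'
  have hsc : (s : ℂ) ≠ 0 := by exact_mod_cast hspos.ne'
  have hdc : (d : ℂ) ≠ 0 := by exact_mod_cast hdpos.ne'
  -- ratio on M
  have ha : a ≠ 0 := by
    intro h
    have hb : b ≠ 0 := hab.resolve_left (fun h' => h' h)
    have := h1 1 hM1
    rw [h, zero_mul, hdeg2] at this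
    exact mul_ne_zero hb (mul_ne_zero hsc hdc) this.symm
  have hb1 : a * r = b * s := by
    have := h1 1 hM1
    rw [hdeg1, hdeg2] at this
    have h3 : (a * r - b * s) * d = 0 := by linear_combination this
    have := (mul_eq_zero.mp h3).resolve_right hdc
    linear_combination this
  have hM : ∀ g ∈ M, (s : ℂ) * φ g = r * ψ g := by
    intro g hg
    have h3 := h1 g hg
    have h4 : a * (s * φ g - r * ψ g) = 0 := by
      linear_combination (s : ℂ) * h3 - ψ g * hb1
    have := (mul_eq_zero.mp h4).resolve_left ha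
    linear_combination this
  obtain ⟨x, y, hxy⟩ : ∃ x y : ℤ, x * r + y * s = 1 := by
    have := (Nat.isCoprime_iff_coprime.mpr hcop)
    obtain ⟨x, y, h⟩ := this
    exact ⟨x, y, h⟩
  have hxy' : (x : ℂ) * r + y * s = 1 := by exact_mod_cast hxy
  set t0 : G → ℂ := fun g => x * φ g + y * ψ g with ht0
  have hM1' : ∀ g ∈ M, φ g = r * t0 g := by
    intro g hg
    have := hM g hg
    simp only [ht0]
    linear_combination (- φ g) * hxy' + (y : ℂ) * this
  have hM2' : ∀ g ∈ M, ψ g = s * t0 g := by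
    intro g hg
    have := hM g hg
    simp only [ht0]
    linear_combination (- ψ g) * hxy' - (x : ℂ) * this
  -- sums
  set P : ℝ := ∑ g ∈ Finset.univ.filter (· ∈ M), Complex.normSq (t0 g) with hP
  set Q : ℝ := ∑ g ∈ Finset.univ.filter (· ∉ M), Complex.normSq (ψ g) with hQ
  set R : ℝ := ∑ g ∈ Finset.univ.filter (· ∉ M), Complex.normSq (φ g) with hR
  have ht01 : t0 1 = d := by
    have := hM1' 1 hM1
    rw [hdeg1] at this
    exact (mul_left_cancel₀ hrc this).symm
  have hPpos : 0 < P := by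
    apply Finset.sum_pos' (fun g _ => Complex.normSq_nonneg _)
    refine ⟨1, by simp [hM1], ?_⟩
    rw [ht01]
    exact Complex.normSq_pos.mpr hdc
  have hQnn : 0 ≤ Q := Finset.sum_nonneg fun g _ => Complex.normSq_nonneg _
  have hRnn : 0 ≤ R := Finset.sum_nonneg fun g _ => Complex.normSq_nonneg _
  have o1 := orth_star hφ hφ
  have o2 := orth_star hψ hψ
  have o3 := orth_star hφ hψ
  rw [if_pos rfl] at o1 o2
  rw [if_neg hne] at o3
  rw [sum_split M] at o1 o2 o3
  have c1 : ∑ g ∈ Finset.univ.filter (· ∈ M), φ g * (starRingEnd ℂ) (φ g) = ((r : ℂ) ^ 2 * P) := by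
    rw [hP, ← normSq_sum, Finset.mul_sum]
    refine Finset.sum_congr rfl fun g hg => ?_
    rw [hM1' g (Finset.mem_filter.mp hg).2, map_mul, Complex.conj_natCast]
    ring
  have c2 : ∑ g ∈ Finset.univ.filter (· ∈ M), ψ g * (starRingEnd ℂ) (ψ g) = ((s : ℂ) ^ 2 * P) := by
    rw [hP, ← normSq_sum, Finset.mul_sum]
    refine Finset.sum_congr rfl fun g hg => ?_
    rw [hM2' g (Finset.mem_filter.mp hg).2, map_mul, Complex.conj_natCast]
    ring
  have c3 : ∑ g ∈ Finset.univ.filter (· ∈ M), φ g * (starRingEnd ℂ) (ψ g) = ((r : ℂ) * s * P) := by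
    rw [hP, ← normSq_sum, Finset.mul_sum]
    refine Finset.sum_congr rfl fun g hg => ?_
    rw [hM1' g (Finset.mem_filter.mp hg).2, hM2' g (Finset.mem_filter.mp hg).2, map_mul,
      Complex.conj_natCast]
    ring
  rw [c1, normSq_sum, ← hR] at o1
  rw [c2, normSq_sum, ← hQ] at o2
  rw [c3] at o3
  have hPc : (P : ℂ) ≠ 0 := by exact_mod_cast hPpos.ne'
  have ha' : a' ≠ 0 := by
    intro h
    have hb : b' ≠ 0 := hab'.resolve_left (fun h' => h' h)
    have h5 : ∀ g ∉ M, ψ g = 0 := by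
      intro g hg
      have := h2 g hg
      rw [h, zero_mul] at this
      exact (mul_eq_zero.mp this.symm).resolve_left hb
    have h6 : ∑ g ∈ Finset.univ.filter (· ∉ M), φ g * (starRingEnd ℂ) (ψ g) = 0 := by
      apply Finset.sum_eq_zero
      intro g hg
      rw [h5 g (Finset.mem_filter.mp hg).2, map_zero, mul_zero]
    rw [h6, add_zero] at o3
    exact mul_ne_zero (mul_ne_zero hrc hsc) hPc o3
  set c := b' / a' with hc
  have hN : ∀ g ∉ M, φ g = c * ψ g := by
    intro g hg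
    have := h2 g hg
    rw [hc]
    field_simp
    linear_combination this
  have c4 : ∑ g ∈ Finset.univ.filter (· ∉ M), φ g * (starRingEnd ℂ) (ψ g) = c * Q := by
    rw [hQ, ← normSq_sum, Finset.mul_sum]
    refine Finset.sum_congr rfl fun g hg => ?_
    rw [hN g (Finset.mem_filter.mp hg).2]
    ring
  have c5 : (R : ℂ) = c * (starRingEnd ℂ) c * Q := by
    rw [hQ, hR, ← normSq_sum, ← normSq_sum, Finset.mul_sum]
    refine Finset.sum_congr rfl fun g hg => ?_
    rw [hN g (Finset.mem_filter.mp hg).2, map_mul]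
    ring
  rw [c4] at o3
  have hQ0 : Q ≠ 0 := by
    intro h
    rw [h] at o3
    simp only [Complex.ofReal_zero, mul_zero, add_zero] at o3
    exact mul_ne_zero (mul_ne_zero hrc hsc) hPc o3
  have hQc : (Q : ℂ) ≠ 0 := by exact_mod_cast hQ0
  have hcr : c = ((-(r * s * P / Q) : ℝ) : ℂ) := by
    push_cast
    field_simp
    linear_combination o3
  have hconj : (starRingEnd ℂ) c = c := by rw [hcr, Complex.conj_ofReal]
  rw [hconj] at c5
  have hQP : (Q : ℂ) = r ^ 2 * P := by
    have e5 : ((Q : ℂ) - r ^ 2 * P) * (Q + s ^ 2 * P) = 0 := by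
      have e6 : (r : ℂ) ^ 2 * P + c * c * Q = s ^ 2 * P + Q := by
        rw [← c5, o1, o2]
      have e7 : c * Q = -(r * s * P) := by linear_combination o3
      have e8 : c * c * Q * Q = (r * s * P) ^ 2 := by
        have : c * c * Q * Q = (c * Q) ^ 2 := by ring
        rw [this, e7]
        ring
      linear_combination e8 - (Q : ℂ) * e6
    rcases mul_eq_zero.mp e5 with h | h
    · linear_combination h
    · exfalso
      have h7 : Q + (s : ℝ) ^ 2 * P = 0 := by exact_mod_cast h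
      have h8 : 0 < (s : ℝ) ^ 2 * P := by positivity
      linarith
  have hcval : (r : ℂ) * c = -s := by
    have e7 : c * Q = -(r * s * P) := by linear_combination o3
    rw [hQP] at e7
    have : ((r : ℂ) * c + s) * (r * P) = 0 := by linear_combination e7
    rcases mul_eq_zero.mp this with h | h
    · linear_combination h
    · exact absurd h (mul_ne_zero hrc hPc)
  have hN' : ∀ g ∉ M, (r : ℂ) * φ g = -(s * ψ g) := by
    intro g hg
    rw [hN g hg, ← mul_assoc, hcval]
    ring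
  have hsum : ((r : ℂ) ^ 2 + s ^ 2) * P = Nat.card G := by
    rw [← o2, hQP]
    ring
  set t : G → ℂ := fun g => if g ∈ M then x * φ g + y * ψ g else y * φ g - x * ψ g with ht
  have htM : ∀ g ∈ M, t g = t0 g := fun g hg => by simp only [ht, if_pos hg, ht0]
  have htN : ∀ g ∉ M, t g = y * φ g - x * ψ g := fun g hg => by simp only [ht, if_neg hg]
  have off1 : ∀ g ∉ M, φ g = s * t g := by
    intro g hg
    rw [htN g hg]
    linear_combination (- φ g) * hxy' + (x : ℂ) * (hN' g hg)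
  have off2 : ∀ g ∉ M, ψ g = -(r * t g) := by
    intro g hg
    rw [htN g hg]
    linear_combination (- ψ g) * hxy' + (y : ℂ) * (hN' g hg)
  refine ⟨t, r, s, d, hφ, hψ, hcop, hrpos, hspos, hdpos, hdeg1, hdeg2, hM1, hMc, ?_, ?_, off1,
    off2, ?_, ?_, ?_⟩
  · intro g hg
    rw [htM g hg]
    exact hM1' g hg
  · intro g hg
    rw [htM g hg]
    exact hM2' g hg
  · intro g
    have i1 := hφ.isIntegral g
    have i2 := hψ.isIntegral g
    have ix : IsIntegral ℤ (x : ℂ) := by
      have := isIntegral_algebraMap (R := ℤ) (A := ℂ) (x := x)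
      simpa using this
    have iy : IsIntegral ℤ (y : ℂ) := by
      have := isIntegral_algebraMap (R := ℤ) (A := ℂ) (x := y)
      simpa using this
    simp only [ht]
    split_ifs
    · exact (ix.mul i1).add (iy.mul i2)
    · exact (iy.mul i1).sub (ix.mul i2)
  · rw [← hsum]
    congr 1
    rw [hP, ← normSq_sum]
    exact Finset.sum_congr rfl fun g hg => by rw [htM g (Finset.mem_filter.mp hg).2]
  · have h9 : (Q : ℂ) = (r : ℂ) ^ 2 * ∑ g ∈ Finset.univ.filter (· ∉ M),
        t g * (starRingEnd ℂ) (t g) := by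
      rw [hQ, ← normSq_sum, Finset.mul_sum]
      refine Finset.sum_congr rfl fun g hg => ?_
      rw [off2 g (Finset.mem_filter.mp hg).2, map_neg, map_mul, Complex.conj_natCast]
      ring
    have h10 : (∑ g ∈ Finset.univ.filter (· ∉ M), t g * (starRingEnd ℂ) (t g)) = P := by
      have : (r : ℂ) ^ 2 * ∑ g ∈ Finset.univ.filter (· ∉ M), t g * (starRingEnd ℂ) (t g) =
          (r : ℂ) ^ 2 * P := by rw [← h9, hQP]
      exact mul_left_cancel₀ (pow_ne_zero 2 hrc) this
    rw [h10, hsum]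

end Pool.Agent.H515.SP
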