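import Pool.Agent.H515.SP.Few

/-!
# The dimension of the reduction of an idempotent
-/

set_option autoImplicit false
set_option linter.style.haveILetI false
set_option linter.unusedSectionVars false

open scoped BigOperators Classical
open Pool.Agent.H254R3.IN Pool.Agent.Helper884

noncomputable section

namespace Pool.Agent.H515.SP

variable {G : Type} [Group G] [Fintype G] {O : ValuationSubring ℂ}

/-- functions and elements of the group algebra -/
def elEquiv (F G : Type) [Field F] [Group G] [Fintype G] : (G → F) ≃ₗ[F] MonoidAlgebra F G where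
  toFun := el
  map_add' f h := (el_add f h).symm
  map_smul' c f := (el_smul c f).symm
  invFun x := fun g => x.coeff g
  left_inv f := funext fun g => coeff_el f g
  right_inv x := el_coeff x

lemma finrank_MA (F : Type) [Field F] : Module.finrank F (MonoidAlgebra F G) = Nat.card G := by
  rw [← (elEquiv F G).finrank_eq, Module.finrank_fintype_fun_eq_card, Nat.card_eq_fintype_card]

/-- convolution operator over `ℂ` -/
def cvOp (η : G → ℂ) : (G → ℂ) →ₗ[ℂ] (G → ℂ) where
  toFun f := conv η f
  map_add' f h := by
    funext g
    simp only [conv, Pi.add_apply, mul_add, Finset.sum_add_distrib]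
  map_smul' c f := by
    funext g
    simp only [conv, Pi.smul_apply, smul_eq_mul, RingHom.id_apply, Finset.mul_sum]
    exact Finset.sum_congr rfl fun x _ => by ring

lemma conv_assoc (f h k : G → ℂ) : conv (conv f h) k = conv f (conv h k) := by
  funext g
  unfold conv
  simp only [Finset.sum_mul, Finset.mul_sum]
  rw [Finset.sum_comm]
  refine Finset.sum_congr rfl fun x _ => ?_
  refine Fintype.sum_equiv (Equiv.mulLeft x⁻¹) _ _ fun y => ?_
  simp only [Equiv.coe_mulLeft, mul_inv_rev, inv_inv, mul_assoc, mul_inv_cancel_left]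

lemma trace_cvOp (η : G → ℂ) : LinearMap.trace ℂ (G → ℂ) (cvOp η) = Nat.card G * η 1 := by
  rw [LinearMap.trace_eq_matrix_trace ℂ (Pi.basisFun ℂ G), Matrix.trace]
  have : ∀ g : G, Matrix.diag (LinearMap.toMatrix (Pi.basisFun ℂ G) (Pi.basisFun ℂ G) (cvOp η)) g
      = η 1 := by
    intro g
    rw [Matrix.diag_apply, LinearMap.toMatrix_apply]
    simp only [Pi.basisFun_apply, Pi.basisFun_repr]
    change ∑ x, η x * (Pi.single g 1 : G → ℂ) (x⁻¹ * g) = η 1
    rw [Finset.sum_eq_single 1]
    · simp
    · intro x _ hx
      have : x⁻¹ * g ≠ g := by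
        intro h
        apply hx
        have h2 : x⁻¹ = 1 := by
          have := congrArg (· * g⁻¹) h
          simpa using this
        simpa using h2
      rw [Pi.single_eq_of_ne this, mul_zero]
    · intro h
      exact absurd (Finset.mem_univ _) h
  rw [Finset.sum_congr rfl fun g _ => this g, Finset.sum_const, nsmul_eq_mul, Finset.card_univ,
    Nat.card_eq_fintype_card]

lemma finrank_cvOp (η : G → ℂ) (hid : conv η η = η) :
    (Module.finrank ℂ (LinearMap.range (cvOp η)) : ℂ) = Nat.card G * η 1 := by
  rw [← trace_cvOp]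
  have h : LinearMap.IsProj (LinearMap.range (cvOp η)) (cvOp η) := by
    refine ⟨fun x => ⟨x, rfl⟩, ?_⟩
    rintro _ ⟨y, rfl⟩
    change conv η (conv η y) = conv η y
    rw [← conv_assoc, hid]
  exact h.trace.symm

/-- the rank of the reduction is at most the rank -/
lemma finrank_rd_le (η : G → ℂ) (hηO : ∀ g, η g ∈ O) (hid : conv η η = η) :
    Module.finrank (RF O) (LinearMap.range (LinearMap.mulLeft (RF O) (rd O η))) ≤
      Module.finrank ℂ (LinearMap.range (cvOp η)) := by
  haveI : FiniteDimensional (RF O) (MonoidAlgebra (RF O) G) :=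
    Module.Finite.equiv (elEquiv (RF O) G)
  set W := LinearMap.range (LinearMap.mulLeft (RF O) (rd O η)) with hW
  let b := Module.finBasis (RF O) W
  choose L hLO hL using fun a : RF O => exists_lift a
  let c : Fin (Module.finrank (RF O) W) → G → ℂ := fun i g => L ((b i : MonoidAlgebra (RF O) G).coeff g)
  have hc : ∀ i, rd O (c i) = (b i : MonoidAlgebra (RF O) G) := by
    intro i
    unfold rd
    conv_rhs => rw [← el_coeff (b i : MonoidAlgebra (RF O) G)]
    congr 1
    funext g
    exact hL _
  let v : Fin (Module.finrank (RF O) W) → G → ℂ := fun i => conv η (c i)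
  have hvO : ∀ i g, v i g ∈ O := fun i g => conv_mem hηO (fun g => hLO _) g
  have hidR : rd O η * rd O η = rd O η := by rw [rd_conv hηO hηO, hid]
  have hred : ∀ i, rd O (v i) = (b i : MonoidAlgebra (RF O) G) := by
    intro i
    change rd O (conv η (c i)) = _
    rw [← rd_conv hηO (fun g => hLO _), hc]
    obtain ⟨y, hy⟩ := (b i).2
    rw [← hy]
    change rd O η * (rd O η * y) = rd O η * y
    rw [← mul_assoc, hidR]
  have hli : LinearIndependent (RF O) (fun i x => red O (v i x)) := by
    have h1 : LinearIndependent (RF O) (fun i => (b i : MonoidAlgebra (RF O) G)) :=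
      b.linearIndependent.map' W.subtype (Submodule.ker_subtype _)
    have h2 : (fun i => (b i : MonoidAlgebra (RF O) G)) =
        (elEquiv (RF O) G) ∘ (fun i x => red O (v i x)) := by
      funext i
      exact (hred i).symm
    rw [h2] at h1
    exact LinearIndependent.of_comp (elEquiv (RF O) G).toLinearMap h1
  have hli2 := linIndep_of_red v hvO hli
  have h5 : Module.finrank ℂ (Submodule.span ℂ (Set.range v)) = Module.finrank (RF O) W := by
    have := finrank_span_eq_card hli2
    simpa using this
  rw [← h5]
  apply Submodule.finrank_mono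
  rw [Submodule.span_le]
  rintro _ ⟨i, rfl⟩
  exact ⟨c i, rfl⟩

lemma rd_dl : rd O (dl : G → ℂ) = 1 := by
  unfold rd
  apply MonoidAlgebra.coeff_injective
  ext g
  rw [coeff_el, MonoidAlgebra.one_def, MonoidAlgebra.coeff_single, Finsupp.single_apply]
  unfold dl
  split_ifs with h1 h2 h3
  · exact red_one
  · exact absurd h1.symm h2
  · exact absurd h3.symm h1
  · exact red_zero

lemma conv_dl (f : G → ℂ) : conv f dl = f := by
  funext g
  unfold conv dl
  rw [Finset.sum_eq_single g]
  · simp
  · intro x _ hx
    rw [if_neg, mul_zero]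
    intro h
    exact hx (inv_mul_eq_one.mp h)
  · intro h
    exact absurd (Finset.mem_univ _) h

lemma dl_conv (f : G → ℂ) : conv dl f = f := by
  funext g
  unfold conv dl
  rw [Finset.sum_eq_single 1]
  · simp
  · intro x _ hx
    rw [if_neg hx, zero_mul]
  · intro h
    exact absurd (Finset.mem_univ _) h

/-- the rank of the reduction is at least the rank -/
theorem finrank_rd_ge (ε : G → ℂ) (hεO : ∀ g, ε g ∈ O) (hid : conv ε ε = ε) (D : ℕ)
    (hD : (D : ℂ) = Nat.card G * ε 1) :
    D ≤ Module.finrank (RF O) (LinearMap.range (LinearMap.mulLeft (RF O) (rd O ε))) := by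
  haveI : FiniteDimensional (RF O) (MonoidAlgebra (RF O) G) :=
    Module.Finite.equiv (elEquiv (RF O) G)
  set η : G → ℂ := fun g => dl g - ε g with hη
  have hηO : ∀ g, η g ∈ O := fun g => sub_mem' (dl_mem O g) (hεO g)
  have hsub : ∀ f h k : G → ℂ, conv (fun g => f g - h g) k = fun g => conv f k g - conv h k g := by
    intro f h k
    funext g
    simp only [conv, sub_mul, Finset.sum_sub_distrib]
  have hsub' : ∀ f h k : G → ℂ, conv k (fun g => f g - h g) = fun g => conv k f g - conv k h g := by
    intro f h k
    funext g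
    simp only [conv, mul_sub, Finset.sum_sub_distrib]
  have hidη : conv η η = η := by
    rw [hη, hsub, hsub', hsub']
    funext g
    simp only [conv_dl, dl_conv, hid]
    ring
  have h1 := finrank_rd_le η hηO hidη
  have h2 := finrank_cvOp η hidη
  have h3 : (Module.finrank ℂ (LinearMap.range (cvOp η)) : ℂ) + D = Nat.card G := by
    rw [h2, hD, hη]
    have : (dl (1 : G) : ℂ) = 1 := by simp [dl]
    simp only [this]
    ring
  have h3' : Module.finrank ℂ (LinearMap.range (cvOp η)) + D = Nat.card G := by exact_mod_cast h3
  have hrd : rd O η = 1 - rd O ε := by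
    have : rd O η + rd O ε = 1 := by
      rw [← rd_dl]
      unfold rd
      rw [el_add]
      congr 1
      funext g
      rw [← red_add (hηO g) (hεO g)]
      congr 1
      simp [hη]
    rw [← this]
    abel
  have hidR : rd O ε * rd O ε = rd O ε := by rw [rd_conv hεO hεO, hid]
  have h4 : LinearMap.ker (LinearMap.mulLeft (RF O) (rd O ε)) ≤
      LinearMap.range (LinearMap.mulLeft (RF O) (rd O η)) := by
    intro x hx
    refine ⟨x, ?_⟩
    have hx' : rd O ε * x = 0 := hx
    change rd O η * x = x
    rw [hrd, sub_mul, one_mul, hx', sub_zero]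
  have h5 := LinearMap.finrank_range_add_finrank_ker (LinearMap.mulLeft (RF O) (rd O ε))
  rw [finrank_MA] at h5
  have h6 := Submodule.finrank_mono h4
  omega

end Pool.Agent.H515.SP
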