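import Pool.Agent.H515.SP.Char

/-!
# Semiproportional irreducible characters: divisibility by central characters
-/

set_option autoImplicit false
set_option linter.style.haveILetI false
set_option linter.unusedSectionVars false

open scoped BigOperators Classical
open Pool.Agent.H254R3.IN

noncomputable section

namespace Pool.Agent.H515.SP

variable {G : Type} [Group G] [Fintype G]

namespace Pr

variable {φ ψ t : G → ℂ} {M : Set G} {r s d : ℕ}

lemma rc (h : Pr φ ψ t M r s d) : (r : ℂ) ≠ 0 := by exact_mod_cast h.rpos.ne'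
lemma sc (h : Pr φ ψ t M r s d) : (s : ℂ) ≠ 0 := by exact_mod_cast h.spos.ne'
lemma dc (h : Pr φ ψ t M r s d) : (d : ℂ) ≠ 0 := by exact_mod_cast h.dpos.ne'

lemma mem_iff (h : Pr φ ψ t M r s d) {g k : G} (hc : IsConj g k) : g ∈ M ↔ k ∈ M := by
  obtain ⟨c, rfl⟩ := isConj_iff.mp hc
  constructor
  · exact fun hg => h.conj_mem g c hg
  · intro hg
    have := h.conj_mem _ c⁻¹ hg
    have e : c⁻¹ * (c * g * c⁻¹) * c⁻¹⁻¹ = g := by group
    rwa [e] at this

lemma t_conj (h : Pr φ ψ t M r s d) {g k : G} (hc : IsConj g k) : t g = t k := by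
  by_cases hg : g ∈ M
  · have hk := (h.mem_iff hc).mp hg
    have e := h.irr1.isConj hc
    rw [h.on1 g hg, h.on1 k hk] at e
    exact mul_left_cancel₀ h.rc e
  · have hk := fun hk => hg ((h.mem_iff hc).mpr hk)
    have e := h.irr1.isConj hc
    rw [h.off1 g hg, h.off1 k hk] at e
    exact mul_left_cancel₀ h.sc e

lemma isInt_intCast (x : ℤ) : IsIntegral ℤ (x : ℂ) := by
  have := isIntegral_algebraMap (R := ℤ) (A := ℂ) (x := x)
  simpa using this

/-- `|C| t(g) / (r s d)` is an algebraic integer off `M` -/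
lemma integral_off (h : Pr φ ψ t M r s d) {g : G} (hg : g ∉ M) :
    IsIntegral ℤ ((Nat.card {y : G // IsConj g y} : ℂ) * t g / (r * s * d)) := by
  have i1 := h.irr1.omega_isIntegral g
  have i2 := h.irr2.omega_isIntegral g
  unfold omega at i1 i2
  rw [h.off1 g hg, h.deg1] at i1
  rw [h.off2 g hg, h.deg2] at i2
  obtain ⟨u, v, huv⟩ : ∃ u v : ℤ, u * s ^ 2 + v * r ^ 2 = 1 := by
    have h1 : IsCoprime ((s : ℤ) ^ 2) ((r : ℤ) ^ 2) :=
      ((Nat.isCoprime_iff_coprime.mpr h.cop).symm).pow
    obtain ⟨u, v, h⟩ := h1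
    exact ⟨u, v, h⟩
  have huv' : (u : ℂ) * s ^ 2 + v * r ^ 2 = 1 := by exact_mod_cast huv
  have hr := h.rc
  have hs := h.sc
  have hd := h.dc
  set k : ℂ := (Nat.card {y : G // IsConj g y} : ℂ) with hk
  have e : k * t g / (r * s * d) =
      u * (k * (s * t g) / (r * d)) - v * (k * (-(r * t g)) / (s * d)) := by
    field_simp
    linear_combination (- k * t g) * huv'
  rw [e]
  exact ((isInt_intCast u).mul i1).sub ((isInt_intCast v).mul i2)

theorem dvd_card (h : Pr φ ψ t M r s d) : r * s * d * (r ^ 2 + s ^ 2) ∣ Nat.card G := by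
  have hr := h.rc
  have hs := h.sc
  have hd := h.dc
  have hn : ((r : ℂ) ^ 2 + s ^ 2) ≠ 0 := by
    have : 0 < r ^ 2 + s ^ 2 := by have := h.rpos; positivity
    exact_mod_cast this.ne'
  set S : ℂ := ∑ g ∈ Finset.univ.filter (· ∉ M), t g * (starRingEnd ℂ) (t g) with hS
  have hint : IsIntegral ℤ (S / (r * s * d)) := by
    have e1 : S = ∑ K : ConjClasses G, (if rep K ∉ M then
        (Nat.card {y : G // IsConj (rep K) y} : ℂ) * t (rep K) * (starRingEnd ℂ) (t (rep K)) else 0) := by
      rw [hS, Finset.sum_filter, sum_classes]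
      refine Finset.sum_congr rfl fun K _ => ?_
      have h2 : ∀ g ∈ Finset.univ.filter (fun g => IsConj (rep K) g),
          (if g ∉ M then t g * (starRingEnd ℂ) (t g) else 0) =
          (if rep K ∉ M then t (rep K) * (starRingEnd ℂ) (t (rep K)) else 0) := by
        intro g hg
        have hc := (Finset.mem_filter.mp hg).2
        have h3 := h.mem_iff hc
        rw [h.t_conj hc]
        simp only [h3]
      rw [Finset.sum_congr rfl h2, Finset.sum_const, nsmul_eq_mul]
      have h3 : (Finset.univ.filter (fun g => IsConj (rep K) g)).card =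
          Nat.card {y : G // IsConj (rep K) y} := by
        rw [Nat.card_eq_fintype_card, Fintype.card_subtype]
      rw [h3]
      split_ifs
      · simp
      · ring
    rw [e1, Finset.sum_div]
    apply IsIntegral.sum
    intro K _
    split_ifs with hK
    · simp only [zero_div]
      exact isIntegral_zero
    · have e2 : (Nat.card {y : G // IsConj (rep K) y} : ℂ) * t (rep K) *
          (starRingEnd ℂ) (t (rep K)) / (r * s * d) =
          ((Nat.card {y : G // IsConj (rep K) y} : ℂ) * t (rep K) / (r * s * d)) *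
          (starRingEnd ℂ) (t (rep K)) := by ring
      rw [e2]
      refine (h.integral_off hK).mul ?_
      exact (h.tint (rep K)).map (starRingEnd ℂ).toIntAlgHom
  have hS2 : S / (r * s * d) * ((r : ℂ) * s * d * (r ^ 2 + s ^ 2)) = Nat.card G := by
    rw [← h.normN, ← hS]
    field_simp
  obtain ⟨m, hm⟩ := Pool.Agent.R721.CD.int_of_rat hint (Nat.card G : ℤ)
    ((r * s * d * (r ^ 2 + s ^ 2) : ℕ) : ℤ) (by
      have := h.rpos
      have := h.spos
      have := h.dpos
      positivity) (by
      push_cast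
      linear_combination hS2)
  rw [hm] at hS2
  have h5 : (Nat.card G : ℤ) = (r * s * d * (r ^ 2 + s ^ 2) : ℕ) * m := by
    have : ((Nat.card G : ℤ) : ℂ) = (((r * s * d * (r ^ 2 + s ^ 2) : ℕ) : ℤ) : ℂ) * (m : ℂ) := by
      push_cast
      linear_combination -hS2
    exact_mod_cast this
  have h6 : ((r * s * d * (r ^ 2 + s ^ 2) : ℕ) : ℤ) ∣ (Nat.card G : ℤ) := ⟨m, h5⟩
  exact_mod_cast h6

end Pr

end Pool.Agent.H515.SP
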