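import Pool.Agent.H254R3.IN.Red

/-!
# Valuation rings of the complex numbers: existence, residue field, linear independence
-/

set_option autoImplicit false
set_option linter.style.haveILetI false
set_option linter.unusedSectionVars false

open scoped BigOperators Classical
open Pool.Agent.H254R3.IN

noncomputable section

namespace Pool.Agent.H515.SP

/-- a valuation ring of `ℂ` above the prime `p` -/
theorem exists_O (p : ℕ) (hp : p.Prime) : ∃ O : ValuationSubring ℂ, (p : ℂ) ∈ O.nonunits := by
  let A : Subring ℂ := (Int.castRingHom ℂ).range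
  have hpA : (p : ℂ) ∈ A := ⟨(p : ℤ), by simp⟩
  let I : Ideal A := Ideal.span {⟨(p : ℂ), hpA⟩}
  have hI : I ≠ ⊤ := by
    intro h
    rw [Ideal.eq_top_iff_one, Ideal.mem_span_singleton] at h
    obtain ⟨⟨c, m, hm⟩, hc⟩ := h
    have h1 : (1 : ℂ) = p * c := congrArg Subtype.val hc
    rw [← hm] at h1
    have h2 : (1 : ℤ) = p * m := by
      have : ((1 : ℤ) : ℂ) = ((p * m : ℤ) : ℂ) := by push_cast; simpa using h1
      exact_mod_cast this
    have h3 : (p : ℤ) ∣ 1 := ⟨m, h2⟩
    have h4 : p ∣ 1 := by exact_mod_cast h3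
    exact hp.one_lt.ne' (Nat.dvd_one.mp h4)
  obtain ⟨O, _, h2⟩ := Ideal.image_subset_nonunits_valuationSubring I hI
  exact ⟨O, h2 ⟨⟨(p : ℂ), hpA⟩, Ideal.subset_span rfl, rfl⟩⟩

/-- the residue field is algebraically closed -/
theorem residue_closed (V : ValuationSubring ℂ) : IsAlgClosed (RF V) := by
  apply IsAlgClosed.of_exists_root
  intro q hq hirr
  have hsur : Function.Surjective (IsLocalRing.residue V) := IsLocalRing.residue_surjective
  obtain ⟨P, hP1, hP2, hP3⟩ := Polynomial.lifts_and_degree_eq_and_monic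
    ((Polynomial.mem_lifts _).mpr (Polynomial.map_surjective _ hsur q)) hq
  have hdeg : P.degree ≠ 0 := by
    rw [hP2]
    exact (Polynomial.degree_pos_of_irreducible hirr).ne'
  have hdeg' : (P.map (algebraMap V ℂ)).degree ≠ 0 := by
    rw [Polynomial.degree_map_eq_of_injective (FaithfulSMul.algebraMap_injective V ℂ)]
    exact hdeg
  obtain ⟨z, hz⟩ := IsAlgClosed.exists_root _ hdeg'
  have hint : IsIntegral V z := ⟨P, hP3, by rwa [Polynomial.IsRoot, Polynomial.eval_map] at hz⟩
  obtain ⟨w, hw⟩ := IsIntegrallyClosed.isIntegral_iff.mp hint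
  refine ⟨IsLocalRing.residue V w, ?_⟩
  have h1 : P.eval w = 0 := by
    apply FaithfulSMul.algebraMap_injective V ℂ
    rw [map_zero, ← hz, ← hw, Polynomial.eval_map, Polynomial.eval₂_at_apply]
  rw [← hP1, Polynomial.eval_map, Polynomial.eval₂_at_apply, h1, map_zero]

/-- a lift of the elements of the residue field -/
theorem exists_lift {O : ValuationSubring ℂ} (a : RF O) : ∃ x : ℂ, x ∈ O ∧ red O x = a := by
  obtain ⟨⟨x, hx⟩, h⟩ := IsLocalRing.residue_surjective a
  exact ⟨x, hx, by rw [red_of_mem hx]; exact h⟩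

/-- the largest coefficient -/
lemma exists_max {O : ValuationSubring ℂ} {ι : Type} [Fintype ι] (c : ι → ℂ) (hc : c ≠ 0) :
    ∃ i, c i ≠ 0 ∧ ∀ j, c j / c i ∈ O := by
  obtain ⟨i0, hi0⟩ : ∃ i, c i ≠ 0 := by
    by_contra h
    push Not at h
    exact hc (funext h)
  haveI : Nonempty ι := ⟨i0⟩
  obtain ⟨i, hi⟩ := Finite.exists_max (fun i => O.valuation (c i))
  have hci : c i ≠ 0 := by
    intro h
    have h1 := hi i0
    rw [h, map_zero, le_zero_iff, map_eq_zero] at h1
    exact hi0 h1
  refine ⟨i, hci, fun j => ?_⟩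
  rw [← O.valuation_le_one_iff, map_div₀]
  exact div_le_one_of_le₀ (hi j) zero_le

/-- linear independence of the reductions implies linear independence -/
theorem linIndep_of_red {O : ValuationSubring ℂ} {ι X : Type} [Fintype ι] (v : ι → X → ℂ)
    (hv : ∀ i x, v i x ∈ O)
    (h : LinearIndependent (RF O) (fun i x => red O (v i x))) : LinearIndependent ℂ v := by
  rw [Fintype.linearIndependent_iff] at h ⊢
  intro c hc
  by_contra hne
  have hc0 : c ≠ 0 := by
    rintro rfl
    exact hne fun _ => rfl
  obtain ⟨i, hi, hj⟩ := exists_max (O := O) c hc0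
  have h1 := h (fun j => red O (c j / c i)) (by
    funext x
    have h2 : ∑ j, (c j / c i) * v j x = 0 := by
      have h3 := congrFun hc x
      simp only [Finset.sum_apply, Pi.smul_apply, smul_eq_mul, Pi.zero_apply] at h3
      have : ∑ j, (c j / c i) * v j x = (∑ j, c j * v j x) / c i := by
        rw [Finset.sum_div]
        exact Finset.sum_congr rfl fun j _ => by ring
      rw [this, h3, zero_div]
    have h4 := congrArg (red O) h2
    rw [red_sum _ _ (fun j _ => O.mul_mem _ _ (hj j) (hv j x)), red_zero] at h4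
    simp only [Finset.sum_apply, Pi.smul_apply, smul_eq_mul, Pi.zero_apply]
    rw [← h4]
    exact Finset.sum_congr rfl fun j _ => by rw [red_mul (hj j) (hv j x)])
  have h5 := h1 i
  simp only [div_self hi, red_one] at h5
  exact one_ne_zero h5

end Pool.Agent.H515.SP
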