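import Pool.Agent.H515.SP.Mon
import Pool.Agent.H515.SP.Val

/-!
# Trace forms on the reduction of a two-character idempotent
-/

set_option autoImplicit false
set_option linter.style.haveILetI false
set_option linter.unusedSectionVars false

open scoped BigOperators Classical
open Pool.Agent.H254R3.IN Pool.Agent.Helper884

noncomputable section

namespace Pool.Agent.H515.SP

variable {G : Type} [Group G] [Fintype G] {O : ValuationSubring ℂ}

/-- the reduction of an element of the group ring -/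
def rd (O : ValuationSubring ℂ) (f : G → ℂ) : MonoidAlgebra (RF O) G := el fun g => red O (f g)

lemma rd_conv {f h : G → ℂ} (hf : ∀ g, f g ∈ O) (hh : ∀ g, h g ∈ O) :
    rd O f * rd O h = rd O (conv f h) := by
  unfold rd
  rw [el_mul]
  congr 1
  funext g
  unfold cv conv
  rw [red_sum _ _ fun x _ => O.mul_mem _ _ (hf x) (hh _)]
  exact Finset.sum_congr rfl fun x _ => (red_mul (hf x) (hh _)).symm

lemma cl_left (f : G → ℂ) (hf : IsCl f) (x g : G) : f (x⁻¹ * g) = f (g * x⁻¹) := by
  have := hf (x⁻¹ * g) x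
  have e : x * (x⁻¹ * g) * x⁻¹ = g * x⁻¹ := by group
  rw [e] at this
  exact this.symm

lemma rd_central {f : G → ℂ} (hf : IsCl f) (x : MonoidAlgebra (RF O) G) :
    rd O f * x = x * rd O f := by
  rw [← el_coeff x]
  unfold rd
  rw [el_mul, el_mul]
  congr 1
  funext g
  unfold cv
  refine Fintype.sum_equiv ((Equiv.inv G).trans (Equiv.mulRight g)) _ _ fun y => ?_
  simp only [Equiv.trans_apply, Equiv.inv_apply, Equiv.coe_mulRight]
  have e : (y⁻¹ * g)⁻¹ * g = g⁻¹ * y * g := by group
  rw [e]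
  have e2 : f (g⁻¹ * y * g) = f y := by
    have := hf y g⁻¹
    rwa [inv_inv] at this
  rw [e2, mul_comm]

/-- the coefficient at the identity -/
def rho (F G : Type) [Field F] [Group G] : MonoidAlgebra F G →ₗ[F] F where
  toFun x := x.coeff 1
  map_add' x y := by rw [MonoidAlgebra.coeff_add, Finsupp.add_apply]
  map_smul' c x := by rw [MonoidAlgebra.coeff_smul, Finsupp.smul_apply]; rfl

lemma rho_apply {F : Type} [Field F] (x : MonoidAlgebra F G) : rho F G x = x.coeff 1 := rfl

lemma rho_isTr {F : Type} [Field F] : IsTr (rho F G) := by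
  intro x y
  rw [← el_coeff x, ← el_coeff y, el_mul, el_mul, rho_apply, rho_apply, coeff_el, coeff_el]
  unfold cv
  refine Fintype.sum_equiv (Equiv.inv G) _ _ fun g => ?_
  simp [mul_comm]

lemma rho_nondeg {F : Type} [Field F] (x : MonoidAlgebra F G)
    (h : ∀ y, rho F G (x * y) = 0) : x = 0 := by
  apply MonoidAlgebra.coeff_injective
  ext g
  have h1 := h (MonoidAlgebra.single g⁻¹ 1)
  rw [rho_apply] at h1
  have h2 : (x * MonoidAlgebra.single g⁻¹ (1 : F)).coeff 1 = x.coeff g := by
    have e : (MonoidAlgebra.single g⁻¹ (1 : F)) = el (fun k => if k = g⁻¹ then 1 else 0) := by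
      apply MonoidAlgebra.coeff_injective
      ext k
      rw [coeff_el, MonoidAlgebra.coeff_single, Finsupp.single_apply]
      simp [eq_comm]
    rw [e]
    conv_lhs => rw [← el_coeff x]
    rw [el_mul, coeff_el]
    unfold cv
    rw [Finset.sum_eq_single g]
    · simp
    · intro k _ hk
      have h3 : ¬ (k⁻¹ * 1 = g⁻¹) := by
        intro h
        rw [mul_one] at h
        exact hk (inv_injective h)
      simp only [if_neg h3, mul_zero]
    · intro h
      exact absurd (Finset.mem_univ _) h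
  rw [h2] at h1
  exact h1

lemma tr_eq {F : Type} [Field F] (f : MonoidAlgebra F G →ₗ[F] F) (x : MonoidAlgebra F G) :
    f x = ∑ g, x.coeff g * f (MonoidAlgebra.single g 1) := by
  conv_lhs => rw [← el_coeff x]
  unfold el
  rw [map_sum]
  refine Finset.sum_congr rfl fun g _ => ?_
  have : MonoidAlgebra.single g (x.coeff g) = x.coeff g • MonoidAlgebra.single g (1 : F) := by
    rw [MonoidAlgebra.smul_single, smul_eq_mul, mul_one]
  rw [this, map_smul, smul_eq_mul]

/-- the translate of a class function by a class function acts on characters by the scalar -/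
lemma scal {χ : G → ℂ} (hχ : IsIrr χ) {ε : G → ℂ} (hε : IsCl ε) (k : G) :
    ∑ y, ε y * χ (k * y) = Om ε χ * χ k := by
  obtain ⟨V, _, _, _, ρ, hr, rfl⟩ := hχ
  have h1 := class_scalar ρ hr ε hε
  have h2 := congrArg (fun S : V →ₗ[ℂ] V => LinearMap.trace ℂ V (ρ k * S)) h1
  simp only [Finset.mul_sum, map_sum, mul_smul_comm, map_smul, smul_eq_mul] at h2
  have h3 : ρ k * LinearMap.id = ρ k := mul_one _
  rw [h3] at h2
  unfold Om
  rw [show (∑ g, ε g * ρ.character g) / ρ.character 1 * ρ.character k =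
    (∑ g, ε g * ρ.character g) / ρ.character 1 * LinearMap.trace ℂ V (ρ k) from rfl, ← h2]
  refine Finset.sum_congr rfl fun y _ => ?_
  rw [← map_mul]
  rfl

/-- the function `x ↦ ∑ ε(y) f(y x)` -/
def tw (ε f : G → ℂ) (x : G) : ℂ := ∑ y, ε y * f (y * x)

lemma tw_cl {ε f : G → ℂ} (hε : IsCl ε) (hf : IsCl f) : IsCl (tw ε f) := by
  intro g c
  unfold tw
  refine Fintype.sum_equiv (MulAut.conj c⁻¹).toEquiv _ _ fun y => ?_
  have e1 : (MulAut.conj c⁻¹).toEquiv y = c⁻¹ * y * c := by simp
  rw [e1]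
  have h1 : ε (c⁻¹ * y * c) = ε y := by simpa using hε y c⁻¹
  rw [h1]
  congr 1
  have := hf (c⁻¹ * y * c * g) c
  have e : c * (c⁻¹ * y * c * g) * c⁻¹ = y * (c * g * c⁻¹) := by group
  rw [e] at this
  exact this

lemma tw_orth {χ ε f : G → ℂ} (hχ : IsIrr χ) (hε : IsCl ε) :
    IC.B (tw ε f) χ = Om ε χ * IC.B f χ := by
  unfold IC.B tw
  have h1 : ∑ x : G, (∑ y, ε y * f (y * x)) * χ x⁻¹ = ∑ z : G, f z * ∑ y, ε y * χ (z⁻¹ * y) := by
    simp only [Finset.sum_mul, Finset.mul_sum]
    rw [Finset.sum_comm]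
    conv_rhs => rw [Finset.sum_comm]
    refine Finset.sum_congr rfl fun y _ => ?_
    refine Fintype.sum_equiv (Equiv.mulLeft y) _ _ fun x => ?_
    simp only [Equiv.coe_mulLeft]
    have e : (y * x)⁻¹ * y = x⁻¹ := by group
    rw [e]
    ring
  rw [h1]
  simp only [scal hχ hε]
  rw [Finset.mul_sum, Finset.mul_sum, Finset.mul_sum]
  refine Finset.sum_congr rfl fun z _ => ?_
  ring

lemma tw_span {φ ψ ε f : G → ℂ} (hε : IsCl ε)
    (hf : IsCl f) (h0 : ∀ χ, IsIrr χ → χ ≠ φ → χ ≠ ψ → Om ε χ = 0) :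
    tw ε f ∈ Submodule.span ℂ {φ, ψ} := by
  have h1 := IC.expand (tw ε f) (tw_cl hε hf)
  rw [h1]
  apply Submodule.sum_mem
  intro χ hχ
  have hχ' : IsIrr χ := IC.mem_Irr.mp hχ
  by_cases e1 : χ = φ
  · rw [e1]
    exact Submodule.smul_mem _ _ (Submodule.subset_span (by simp))
  by_cases e2 : χ = ψ
  · rw [e2]
    exact Submodule.smul_mem _ _ (Submodule.subset_span (by simp))
  rw [tw_orth hχ' hε, h0 χ hχ' e1 e2, zero_mul, zero_smul]
  exact Submodule.zero_mem _

theorem few {φ ψ ε : G → ℂ} (hε : IsCl ε)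
    (hεO : ∀ g, ε g ∈ O)
    (h0 : ∀ χ, IsIrr χ → χ ≠ φ → χ ≠ ψ → Om ε χ = 0)
    (f g h : MonoidAlgebra (RF O) G →ₗ[RF O] RF O) (hf : IsTr f) (hg : IsTr g) (hh : IsTr h)
    (ef : ∀ x, f (rd O ε * x) = f x) (eg : ∀ x, g (rd O ε * x) = g x)
    (eh : ∀ x, h (rd O ε * x) = h x) :
    ∃ a b c : RF O, (a ≠ 0 ∨ b ≠ 0 ∨ c ≠ 0) ∧ ∀ x, a * f x + b * g x + c * h x = 0 := by
  by_contra hcon
  push Not at hcon
  choose L hLO hL using fun a : RF O => exists_lift a
  let T : Fin 3 → (MonoidAlgebra (RF O) G →ₗ[RF O] RF O) := ![f, g, h]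
  have hT : ∀ i, IsTr (T i) := by
    intro i
    fin_cases i
    · exact hf
    · exact hg
    · exact hh
  have eT : ∀ i x, T i (rd O ε * x) = T i x := by
    intro i
    fin_cases i
    · exact ef
    · exact eg
    · exact eh
  let fn : Fin 3 → G → RF O := fun i k => T i (MonoidAlgebra.single k 1)
  have hfn : ∀ i (k c : G), fn i (c * k * c⁻¹) = fn i k := by
    intro i k c
    change T i (MonoidAlgebra.single (c * k * c⁻¹) 1) = T i (MonoidAlgebra.single k 1)
    have e1 : (MonoidAlgebra.single (c * k * c⁻¹) (1 : RF O)) =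
        MonoidAlgebra.single (c * k) 1 * MonoidAlgebra.single c⁻¹ 1 := by
      rw [MonoidAlgebra.single_mul_single, mul_one]
    rw [e1, hT i, MonoidAlgebra.single_mul_single, mul_one]
    congr 2
    group
  let Ft : Fin 3 → G → ℂ := fun i k => L (fn i k)
  have hFt : ∀ i, IsCl (Ft i) := fun i k c => by
    change L (fn i (c * k * c⁻¹)) = L (fn i k)
    rw [hfn]
  let v : Fin 3 → G → ℂ := fun i => tw ε (Ft i)
  have hvO : ∀ i x, v i x ∈ O := fun i x =>
    sum_mem fun y _ => O.mul_mem _ _ (hεO y) (hLO _)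
  have hred : ∀ i x, red O (v i x) = fn i x := by
    intro i x
    change red O (∑ y, ε y * Ft i (y * x)) = fn i x
    rw [red_sum _ _ fun y _ => O.mul_mem _ _ (hεO y) (hLO _)]
    have e1 := eT i (MonoidAlgebra.single x 1)
    rw [show fn i x = T i (MonoidAlgebra.single x 1) from rfl, ← e1]
    have e2 : rd O ε * MonoidAlgebra.single x 1 =
        ∑ y, red O (ε y) • MonoidAlgebra.single (y * x) (1 : RF O) := by
      unfold rd el
      rw [Finset.sum_mul]
      refine Finset.sum_congr rfl fun y _ => ?_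
      rw [MonoidAlgebra.single_mul_single, mul_one, MonoidAlgebra.smul_single, smul_eq_mul, mul_one]
    rw [e2, map_sum]
    refine Finset.sum_congr rfl fun y _ => ?_
    rw [map_smul, smul_eq_mul, red_mul (hεO y) (hLO _), hL]
  have hli : LinearIndependent (RF O) (fun i x => red O (v i x)) := by
    rw [Fintype.linearIndependent_iff]
    intro c hc
    have h1 : ∀ x, c 0 * f x + c 1 * g x + c 2 * h x = 0 := by
      intro x
      rw [tr_eq f x, tr_eq g x, tr_eq h x, Finset.mul_sum, Finset.mul_sum, Finset.mul_sum,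
        ← Finset.sum_add_distrib, ← Finset.sum_add_distrib]
      apply Finset.sum_eq_zero
      intro k _
      have h2 := congrFun hc k
      simp only [Finset.sum_apply, Pi.smul_apply, smul_eq_mul, Pi.zero_apply, hred,
        Fin.sum_univ_three] at h2
      change c 0 * f (MonoidAlgebra.single k 1) + c 1 * g (MonoidAlgebra.single k 1) +
        c 2 * h (MonoidAlgebra.single k 1) = 0 at h2
      linear_combination (x.coeff k) * h2
    by_contra hne'
    push Not at hne'
    obtain ⟨i, hi⟩ := hne'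
    have h3 : c 0 ≠ 0 ∨ c 1 ≠ 0 ∨ c 2 ≠ 0 := by
      fin_cases i
      · exact Or.inl hi
      · exact Or.inr (Or.inl hi)
      · exact Or.inr (Or.inr hi)
    obtain ⟨x, hx⟩ := hcon (c 0) (c 1) (c 2) h3
    exact hx (h1 x)
  have hli2 := linIndep_of_red v hvO hli
  -- but the span has dimension at most two
  have hmem : ∀ i, v i ∈ Submodule.span ℂ ({φ, ψ} : Set (G → ℂ)) := fun i =>
    tw_span hε (hFt i) h0
  have h5 : Module.finrank ℂ (Submodule.span ℂ (Set.range v)) = 3 := by
    have := finrank_span_eq_card hli2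
    simpa using this
  have h6 : Module.finrank ℂ (Submodule.span ℂ (Set.range v)) ≤
      Module.finrank ℂ (Submodule.span ℂ ({φ, ψ} : Set (G → ℂ))) := by
    apply Submodule.finrank_mono
    rw [Submodule.span_le]
    rintro _ ⟨i, rfl⟩
    exact hmem i
  have h7 : Module.finrank ℂ (Submodule.span ℂ ({φ, ψ} : Set (G → ℂ))) ≤ 2 := by
    have h8 := finrank_span_finset_le_card (R := ℂ) ({φ, ψ} : Finset (G → ℂ))
    rw [Finset.coe_insert, Finset.coe_singleton] at h8
    exact h8.trans Finset.card_le_two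
  omega

end Pool.Agent.H515.SP
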