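import Pool.Agent.H515.SP.Dim

/-!
# Reduction of an irreducible representation
-/

set_option autoImplicit false
set_option linter.style.haveILetI false
set_option linter.unusedSectionVars false

open scoped BigOperators Classical TensorProduct
open Pool.Agent.H254R3.IN Pool.Agent.Helper884 Representation

noncomputable section

namespace Pool.Agent.H515.SP

/-- modular reduction of an irreducible character: a module over the group algebra of the same
dimension, on which the reduction of a class function acts by the reduction of the scalar -/
theorem exists_redmod (O : ValuationSubring ℂ) {N : Type} [Group N] [Fintype N] (χ : N → ℂ)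
    (hχ : IsIrr χ) :
    ∃ (Q : Type) (_ : AddCommGroup Q) (_ : Module (RF O) Q) (_ : FiniteDimensional (RF O) Q)
      (τ : MonoidAlgebra (RF O) N →ₐ[RF O] Module.End (RF O) Q),
      (Module.finrank (RF O) Q : ℂ) = χ 1 ∧
      ∀ f : N → ℂ, (∀ n, f n ∈ O) → IsCl f → τ (rd O f) = red O (Om f χ) • 1 := by
  obtain ⟨V, _, _, _, ρ, hr, rfl⟩ := hχ
  have hirr : IsIrr ρ.character := ⟨V, _, _, inferInstance, ρ, hr, rfl⟩
  haveI := irr_nontrivial ρ hr
  obtain ⟨v, hv⟩ := exists_ne (0 : V)
  set M : Submodule O V := Submodule.span O (Set.range fun g : N => ρ g v) with hM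
  have hvM : v ∈ M := Submodule.subset_span ⟨1, by simp⟩
  have hstab : ∀ (g : N) (x : V), x ∈ M → ρ g x ∈ M := by
    intro g x hx
    induction hx using Submodule.span_induction with
    | mem x hx =>
      obtain ⟨e, rfl⟩ := hx
      apply Submodule.subset_span
      exact ⟨g * e, by simp [map_mul]⟩
    | zero => rw [map_zero]; exact M.zero_mem
    | add x y _ _ hx hy => rw [map_add]; exact M.add_mem hx hy
    | smul c x _ hx =>
      have h1 : ρ g (c • x) = c • (ρ g x) := by
        have : (c • x : V) = (c : ℂ) • x := rfl
        rw [this, map_smul]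
        rfl
      rw [h1]
      exact M.smul_mem c hx
  haveI hfin : Module.Finite O M := by
    rw [hM]
    exact Module.Finite.span_of_finite O (Set.finite_range _)
  -- the action on M
  let σ : N →* Module.End O M :=
    { toFun := fun g => 
        { toFun := fun x => ⟨ρ g x, hstab g x x.2⟩
          map_add' := fun x y => Subtype.ext (by simp)
          map_smul' := fun c x => Subtype.ext (by
            have h1 : (((c • x : M) : V)) = (c : ℂ) • (x : V) := rfl
            simp only [h1, map_smul]
            rfl) }
      map_one' := by
        ext x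
        simp
      map_mul' := fun a b => by
        ext x
        simp }
  have hσ : ∀ g x, ((σ g x : M) : V) = ρ g x := fun g x => rfl
  let Q := RF O ⊗[O] M
  let τ0 : N →* Module.End (RF O) Q :=
    { toFun := fun g => (σ g).baseChange (RF O)
      map_one' := by
        rw [map_one]
        exact LinearMap.baseChange_id
      map_mul' := fun a b => by
        rw [map_mul]
        exact LinearMap.baseChange_comp _ _ }
  let τ : MonoidAlgebra (RF O) N →ₐ[RF O] Module.End (RF O) Q :=
    MonoidAlgebra.lift (RF O) (Module.End (RF O) Q) N τ0
  -- freeness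
  haveI htfV : Module.IsTorsionFree O V := Module.IsTorsionFree.trans_faithfulSMul O ℂ V
  haveI htf : Module.IsTorsionFree O M :=
    Function.Injective.moduleIsTorsionFree (fun x : M => (x : V)) Subtype.val_injective
      (fun _ _ => rfl)
  haveI hflat : Module.Flat O M := by
    rw [Module.Flat.flat_iff_torsion_eq_bot_of_isBezout, ← Submodule.isTorsionFree_iff_torsion_eq_bot]
    exact htf
  haveI hfree : Module.Free O M := Module.free_of_flat_of_isLocalRing
  haveI : FiniteDimensional (RF O) Q := inferInstance
  have hspan : Submodule.span ℂ (M : Set V) = ⊤ := by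
    haveI := hr
    let S : Subrepresentation ρ :=
      { toSubmodule := Submodule.span ℂ (M : Set V)
        apply_mem_toSubmodule := by
          intro g x hx
          induction hx using Submodule.span_induction with
          | mem x hx => exact Submodule.subset_span (hstab g x hx)
          | zero => rw [map_zero]; exact Submodule.zero_mem _
          | add x y _ _ hx hy => rw [map_add]; exact Submodule.add_mem _ hx hy
          | smul c x _ hx => rw [map_smul]; exact Submodule.smul_mem _ c hx }
    have hS : S = ⊥ ∨ S = ⊤ := eq_bot_or_eq_top S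
    rcases hS with h | h
    · exfalso
      have h1 : v ∈ S.toSubmodule := Submodule.subset_span hvM
      rw [h] at h1
      have h2 : v ∈ (⊥ : Submodule ℂ V) := h1
      exact hv ((Submodule.mem_bot ℂ).mp h2)
    · have h1 : S.toSubmodule = (⊤ : Submodule ℂ V) := by rw [h]; rfl
      exact h1
  haveI hlat : Submodule.IsLattice ℂ M := ⟨Module.Finite.iff_fg.mp hfin, hspan⟩
  have hrank : Module.finrank O M = Module.finrank ℂ V := by
    let b := Module.finBasis O M
    have h1 := Module.finrank_eq_card_basis (b.extendOfIsLattice ℂ)
    rw [h1, Fintype.card_fin]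
  have hfr : Module.finrank (RF O) Q = Module.finrank ℂ V := by
    rw [← hrank]
    exact Module.finrank_baseChange
  refine ⟨Q, inferInstance, inferInstance, inferInstance, τ, ?_, ?_⟩
  · rw [ρ.char_one, hfr]
  intro f hf hcl
  have hsc := class_scalar ρ hr f hcl
  set c : ℂ := (∑ g, f g * ρ.character g) / ρ.character 1 with hc
  have hcO : c ∈ O := by
    have := (red_Om hirr hcl hf).1
    exact this
  -- identity on M
  have hM1 : ∑ g, (⟨f g, hf g⟩ : O) • σ g = (⟨c, hcO⟩ : O) • (LinearMap.id : M →ₗ[O] M) := by
    ext x
    have h2 := congrArg (fun S : V →ₗ[ℂ] V => S x) hsc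
    simp only [LinearMap.sum_apply, LinearMap.smul_apply, LinearMap.id_apply] at h2
    simp only [LinearMap.sum_apply, LinearMap.smul_apply, LinearMap.id_apply,
      Submodule.coe_sum, Submodule.coe_smul]
    exact h2
  have hred : ∀ (x : ℂ) (hx : x ∈ O) (q : Q), red O x • q = (⟨x, hx⟩ : O) • q := by
    intro x hx q
    rw [red_of_mem hx]
    exact (algebraMap_smul (RF O) (⟨x, hx⟩ : O) q)
  have h3 : ∀ q : Q, ∑ g, red O (f g) • τ0 g q = red O c • q := by
    intro q
    induction q using TensorProduct.induction_on with
    | zero => simp
    | tmul a x =>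
      have h4 := congrArg (fun S : M →ₗ[O] M => a ⊗ₜ[O] S x) hM1
      simp only [LinearMap.sum_apply, LinearMap.smul_apply, LinearMap.id_apply,
        TensorProduct.tmul_sum, TensorProduct.tmul_smul] at h4
      rw [hred c hcO, ← h4]
      refine Finset.sum_congr rfl fun g _ => ?_
      rw [hred (f g) (hf g)]
      rfl
    | add x y hx hy =>
      rw [smul_add, ← hx, ← hy, ← Finset.sum_add_distrib]
      refine Finset.sum_congr rfl fun g _ => ?_
      rw [map_add, smul_add]
  apply LinearMap.ext
  intro q
  have h5 : τ (rd O f) = ∑ g, red O (f g) • τ0 g := by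
    unfold rd el
    rw [map_sum]
    refine Finset.sum_congr rfl fun g _ => ?_
    change MonoidAlgebra.lift (RF O) (Module.End (RF O) Q) N τ0 (MonoidAlgebra.single g (red O (f g))) = _
    rw [MonoidAlgebra.lift_single]
  rw [h5]
  simp only [LinearMap.sum_apply, LinearMap.smul_apply]
  exact h3 q

end Pool.Agent.H515.SP
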