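import Pool.Agent.H515.SP.Lat
import Pool.Agent.H515.SP.Div

/-!
# Semiproportional irreducible characters are never a union of `p`-blocks
-/

set_option autoImplicit false
set_option linter.style.haveILetI false
set_option linter.unusedSectionVars false

open scoped BigOperators Classical
open Pool.Agent.H254R3.IN Pool.Agent.Helper884

noncomputable section

namespace Pool.Agent.H515.SP

variable {G : Type} [Group G] [Fintype G] {φ ψ t : G → ℂ} {M : Set G} {r s d : ℕ}

/-- the part on `M` -/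
def TB (t : G → ℂ) (M : Set G) (g : G) : ℂ := if g ∈ M then t g else 0
/-- the part off `M` -/
def TA (t : G → ℂ) (M : Set G) (g : G) : ℂ := if g ∈ M then 0 else t g

namespace Pr

lemma TB_eq (h : Pr φ ψ t M r s d) (g : G) :
    ((r : ℂ) ^ 2 + s ^ 2) * TB t M g = r * φ g + s * ψ g := by
  unfold TB
  split_ifs with hg
  · rw [h.on1 g hg, h.on2 g hg]; ring
  · rw [h.off1 g hg, h.off2 g hg]; ring

lemma TA_eq (h : Pr φ ψ t M r s d) (g : G) :
    ((r : ℂ) ^ 2 + s ^ 2) * TA t M g = s * φ g - r * ψ g := by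
  unfold TA
  split_ifs with hg
  · rw [h.on1 g hg, h.on2 g hg]; ring
  · rw [h.off1 g hg, h.off2 g hg]; ring

lemma TB_cl (h : Pr φ ψ t M r s d) {g k : G} (hc : IsConj g k) : TB t M g = TB t M k := by
  unfold TB
  rw [h.t_conj hc]
  simp only [h.mem_iff hc]

lemma TA_cl (h : Pr φ ψ t M r s d) {g k : G} (hc : IsConj g k) : TA t M g = TA t M k := by
  unfold TA
  rw [h.t_conj hc]
  simp only [h.mem_iff hc]

lemma conj_inv (g y : G) : IsConj ((y * g * y⁻¹)⁻¹) g⁻¹ := by
  have : (y * g * y⁻¹)⁻¹ = y * g⁻¹ * y⁻¹ := by group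
  rw [this]
  exact (isConj_iff.mpr ⟨y, rfl⟩).symm

lemma ne (h : Pr φ ψ t M r s d) (hrs : r ≠ s) : φ ≠ ψ := by
  intro e
  have h1 := h.deg1
  rw [e, h.deg2] at h1
  have h2 := mul_right_cancel₀ h.dc h1
  exact hrs (by exact_mod_cast h2.symm)

lemma sum_phi (h : Pr φ ψ t M r s d) {χ : G → ℂ} (hχ : IsIrr χ) :
    ∑ g, φ g⁻¹ * χ g = if χ = φ then (Nat.card G : ℂ) else 0 := by
  rw [← orth_sum hχ h.irr1]
  exact Finset.sum_congr rfl fun g _ => mul_comm _ _

lemma sum_psi (h : Pr φ ψ t M r s d) {χ : G → ℂ} (hχ : IsIrr χ) :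
    ∑ g, ψ g⁻¹ * χ g = if χ = ψ then (Nat.card G : ℂ) else 0 := by
  rw [← orth_sum hχ h.irr2]
  exact Finset.sum_congr rfl fun g _ => mul_comm _ _

lemma nc (h : Pr φ ψ t M r s d) : ((r : ℂ) ^ 2 + s ^ 2) ≠ 0 := by
  have : 0 < r ^ 2 + s ^ 2 := by have := h.rpos; positivity
  exact_mod_cast this.ne'

/-- coefficients of the idempotent of the pair -/
def ep (t : G → ℂ) (M : Set G) (r s d : ℕ) (g : G) : ℂ :=
  (((r : ℂ) ^ 2 + s ^ 2) * d / Nat.card G) * TB t M g⁻¹

/-- coefficients of the second central element -/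
def wp (t : G → ℂ) (M : Set G) (r s d : ℕ) (g : G) : ℂ :=
  (((r : ℂ) ^ 2 + s ^ 2) * d / Nat.card G) * TA t M g⁻¹

lemma ep_cl (h : Pr φ ψ t M r s d) : IsCl (ep t M r s d) := by
  intro g y
  unfold ep
  rw [h.TB_cl (conj_inv g y)]

lemma wp_cl (h : Pr φ ψ t M r s d) : IsCl (wp t M r s d) := by
  intro g y
  unfold wp
  rw [h.TA_cl (conj_inv g y)]

lemma Om_ep (h : Pr φ ψ t M r s d) (hrs : r ≠ s) {χ : G → ℂ} (hχ : IsIrr χ) :
    Om (ep t M r s d) χ = (if χ = φ then 1 else 0) + (if χ = ψ then 1 else 0) := by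
  have hG : (Nat.card G : ℂ) ≠ 0 := cardG_ne G
  have e1 : ∑ g, ep t M r s d g * χ g = (d / Nat.card G) *
      (r * ∑ g, φ g⁻¹ * χ g + s * ∑ g, ψ g⁻¹ * χ g) := by
    rw [Finset.mul_sum, Finset.mul_sum, ← Finset.sum_add_distrib, Finset.mul_sum]
    refine Finset.sum_congr rfl fun g _ => ?_
    have := h.TB_eq g⁻¹
    unfold ep
    linear_combination (d / Nat.card G * χ g) * this
  unfold Om
  rw [e1, h.sum_phi hχ, h.sum_psi hχ]
  have hne := h.ne hrs
  have hr := h.rc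
  have hs := h.sc
  have hd := h.dc
  by_cases c1 : χ = φ
  · have c2 : χ ≠ ψ := fun e => hne (c1.symm.trans e)
    rw [if_pos c1, if_neg c2, if_pos c1, if_neg c2, c1, h.deg1]
    field_simp
    ring
  · by_cases c2 : χ = ψ
    · rw [if_neg c1, if_pos c2, if_neg c1, if_pos c2, c2, h.deg2]
      field_simp
      ring
    · rw [if_neg c1, if_neg c2, if_neg c1, if_neg c2]
      ring

lemma Om_wp (h : Pr φ ψ t M r s d) (hrs : r ≠ s) {χ : G → ℂ} (hχ : IsIrr χ) :
    Om (wp t M r s d) χ = (if χ = φ then (s : ℂ) / r else 0) - (if χ = ψ then (r : ℂ) / s else 0) := by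
  have hG : (Nat.card G : ℂ) ≠ 0 := cardG_ne G
  have e1 : ∑ g, wp t M r s d g * χ g = (d / Nat.card G) *
      (s * ∑ g, φ g⁻¹ * χ g - r * ∑ g, ψ g⁻¹ * χ g) := by
    rw [Finset.mul_sum, Finset.mul_sum, ← Finset.sum_sub_distrib, Finset.mul_sum]
    refine Finset.sum_congr rfl fun g _ => ?_
    have := h.TA_eq g⁻¹
    unfold wp
    linear_combination (d / Nat.card G * χ g) * this
  unfold Om
  rw [e1, h.sum_phi hχ, h.sum_psi hχ]
  have hne := h.ne hrs
  have hr := h.rc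
  have hs := h.sc
  have hd := h.dc
  by_cases c1 : χ = φ
  · have c2 : χ ≠ ψ := fun e => hne (c1.symm.trans e)
    rw [if_pos c1, if_neg c2, if_pos c1, if_neg c2, c1, h.deg1]
    field_simp
    ring
  · by_cases c2 : χ = ψ
    · rw [if_neg c1, if_pos c2, if_neg c1, if_pos c2, c2, h.deg2]
      field_simp
      ring
    · rw [if_neg c1, if_neg c2, if_neg c1, if_neg c2]
      ring

lemma ep_ep (h : Pr φ ψ t M r s d) (hrs : r ≠ s) :
    conv (ep t M r s d) (ep t M r s d) = ep t M r s d := by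
  apply eq_of_Om (h.ep_cl.conv h.ep_cl) h.ep_cl
  intro χ hχ
  rw [Om_conv hχ h.ep_cl h.ep_cl, h.Om_ep hrs hχ]
  have hne := h.ne hrs
  by_cases c1 : χ = φ
  · have c2 : χ ≠ ψ := fun e => hne (c1.symm.trans e)
    rw [if_pos c1, if_neg c2]; ring
  · by_cases c2 : χ = ψ
    · rw [if_neg c1, if_pos c2]; ring
    · rw [if_neg c1, if_neg c2]; ring

lemma wp_ep (h : Pr φ ψ t M r s d) (hrs : r ≠ s) :
    conv (wp t M r s d) (ep t M r s d) = wp t M r s d := by
  apply eq_of_Om (h.wp_cl.conv h.ep_cl) h.wp_cl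
  intro χ hχ
  rw [Om_conv hχ h.wp_cl h.ep_cl, h.Om_ep hrs hχ, h.Om_wp hrs hχ]
  have hne := h.ne hrs
  by_cases c1 : χ = φ
  · have c2 : χ ≠ ψ := fun e => hne (c1.symm.trans e)
    rw [if_pos c1, if_neg c2, if_pos c1, if_neg c2]; ring
  · by_cases c2 : χ = ψ
    · rw [if_neg c1, if_pos c2, if_neg c1, if_pos c2]; ring
    · rw [if_neg c1, if_neg c2, if_neg c1, if_neg c2]; ring

lemma wp_wp (h : Pr φ ψ t M r s d) (hrs : r ≠ s) :
    conv (wp t M r s d) (wp t M r s d) =
      fun g => ((s : ℂ) / r - r / s) * wp t M r s d g + ep t M r s d g := by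
  have hcl : IsCl (fun g => ((s : ℂ) / r - r / s) * wp t M r s d g + ep t M r s d g) := by
    intro g y
    change ((s : ℂ) / r - r / s) * wp t M r s d (y * g * y⁻¹) + ep t M r s d (y * g * y⁻¹) = _
    rw [h.wp_cl g y, h.ep_cl g y]
  apply eq_of_Om (h.wp_cl.conv h.wp_cl) hcl
  intro χ hχ
  have e1 : Om (fun g => ((s : ℂ) / r - r / s) * wp t M r s d g + ep t M r s d g) χ =
      ((s : ℂ) / r - r / s) * Om (wp t M r s d) χ + Om (ep t M r s d) χ := by
    unfold Om
    rw [← mul_div_assoc, ← add_div, Finset.mul_sum, ← Finset.sum_add_distrib]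
    congr 1
    refine Finset.sum_congr rfl fun g _ => ?_
    ring
  rw [Om_conv hχ h.wp_cl h.wp_cl, e1, h.Om_ep hrs hχ, h.Om_wp hrs hχ]
  have hne := h.ne hrs
  have hr := h.rc
  have hs := h.sc
  by_cases c1 : χ = φ
  · have c2 : χ ≠ ψ := fun e => hne (c1.symm.trans e)
    rw [if_pos c1, if_neg c2, if_pos c1, if_neg c2]
    field_simp
    ring
  · by_cases c2 : χ = ψ
    · rw [if_neg c1, if_pos c2, if_neg c1, if_pos c2]
      field_simp
      ring
    · rw [if_neg c1, if_neg c2, if_neg c1, if_neg c2]; ring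

lemma t_one (h : Pr φ ψ t M r s d) : t 1 = d := by
  have := h.on1 1 h.one_mem
  rw [h.deg1] at this
  exact (mul_left_cancel₀ h.rc this).symm

lemma TB_mem (h : Pr φ ψ t M r s d) (O : ValuationSubring ℂ) (g : G) : TB t M g ∈ O := by
  unfold TB
  split_ifs
  · exact mem_of_isIntegral (h.tint g)
  · exact O.zero_mem

lemma TA_mem (h : Pr φ ψ t M r s d) (O : ValuationSubring ℂ) (g : G) : TA t M g ∈ O := by
  unfold TA
  split_ifs
  · exact O.zero_mem
  · exact mem_of_isIntegral (h.tint g)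

/-- **Main step.** If `p` divides `r² + s²` and the number `(r² + s²) d / |G|` is `p`-integral then
`r = s`. -/
theorem not_block (h : Pr φ ψ t M r s d) (hrs : r ≠ s) {p : ℕ} [hp : Fact p.Prime]
    (hpn : p ∣ r ^ 2 + s ^ 2) {O : ValuationSubring ℂ} (hpO : (p : ℂ) ∈ O.nonunits)
    (hκ : ((r : ℂ) ^ 2 + s ^ 2) * d / Nat.card G ∈ O) : False := by
  haveI := residue_closed O
  haveI : FiniteDimensional (RF O) (MonoidAlgebra (RF O) G) :=
    Module.Finite.equiv (elEquiv (RF O) G)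
  have hr := h.rc
  have hs := h.sc
  have hd := h.dc
  have hG : (Nat.card G : ℂ) ≠ 0 := cardG_ne G
  set ε := ep t M r s d with hε
  set w := wp t M r s d with hw
  have hεO : ∀ g, ε g ∈ O := fun g => O.mul_mem _ _ hκ (h.TB_mem O _)
  have hwO : ∀ g, w g ∈ O := fun g => O.mul_mem _ _ hκ (h.TA_mem O _)
  -- p does not divide r, s
  have hpr : ¬ p ∣ r := by
    intro hr'
    have h1 : p ∣ s ^ 2 := (Nat.dvd_add_right (dvd_pow hr' two_ne_zero)).mp hpn
    have h2 : p ∣ s := hp.out.dvd_of_dvd_pow h1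
    have h3 := Nat.dvd_gcd hr' h2
    rw [h.cop] at h3
    exact hp.out.one_lt.ne' (Nat.dvd_one.mp h3)
  have hps : ¬ p ∣ s := by
    intro hs'
    have h1 : p ∣ r ^ 2 := (Nat.dvd_add_left (dvd_pow hs' two_ne_zero)).mp hpn
    have h2 : p ∣ r := hp.out.dvd_of_dvd_pow h1
    exact hpr h2
  have hrO : (r : ℂ)⁻¹ ∈ O := nat_inv_mem hpO hpr
  have hsO : (s : ℂ)⁻¹ ∈ O := nat_inv_mem hpO hps
  have hsrO : (s : ℂ) / r ∈ O := O.mul_mem _ _ (natCast_mem' s) hrO
  have hrsO : (r : ℂ) / s ∈ O := O.mul_mem _ _ (natCast_mem' r) hsO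
  obtain ⟨m, hm⟩ := hpn
  have hm' : (r : ℂ) ^ 2 + s ^ 2 = p * m := by exact_mod_cast hm
  have hnn : ∀ x ∈ O, (p : ℂ) * x ∈ O.nonunits := by
    intro x hx
    have hpm : (p : ℂ) ∈ O := nonunits_mem hpO
    rw [← red_eq_zero_iff (O.mul_mem _ _ hpm hx), red_mul hpm hx, red_eq_zero hpO, zero_mul]
  set ω := red O ((s : ℂ) / r) with hω
  have hω2 : red O ((r : ℂ) / s) = -ω := by
    have e1 : (s : ℂ) / r + r / s = p * (m * ((r : ℂ)⁻¹ * (s : ℂ)⁻¹)) := by
      have : (s : ℂ) / r + r / s = ((r : ℂ) ^ 2 + s ^ 2) * ((r : ℂ)⁻¹ * (s : ℂ)⁻¹) := by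
        field_simp
        ring
      rw [this, hm']
      ring
    have e2 : red O ((s : ℂ) / r + r / s) = 0 := by
      rw [e1]
      exact red_eq_zero (hnn _ (O.mul_mem _ _ (natCast_mem' m) (O.mul_mem _ _ hrO hsO)))
    rw [red_add hsrO hrsO] at e2
    exact eq_neg_of_add_eq_zero_right e2
  have hωω : ω * ω = -1 := by
    have e1 : red O ((s : ℂ) / r * (r / s)) = 1 := by
      have : (s : ℂ) / r * (r / s) = 1 := by field_simp
      rw [this, red_one]
    rw [red_mul hsrO hrsO, hω2] at e1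
    linear_combination -e1
  have hω0 : ω ≠ 0 := by
    intro h0
    rw [h0, mul_zero] at hωω
    have : (1 : RF O) = 0 := by linear_combination hωω
    exact one_ne_zero this
  -- relations in the group algebra
  have hee : rd O ε * rd O ε = rd O ε := by rw [rd_conv hεO hεO, h.ep_ep hrs]
  have hwe : rd O w * rd O ε = rd O w := by rw [rd_conv hwO hεO, h.wp_ep hrs]
  have hcw := rd_central (O := O) h.wp_cl
  have hce := rd_central (O := O) h.ep_cl
  have hew : rd O ε * rd O w = rd O w := by rw [hce, hwe]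
  have hww : rd O w * rd O w = (ω + ω) • rd O w + rd O ε := by
    rw [rd_conv hwO hwO, h.wp_wp hrs]
    unfold rd
    rw [el_smul, el_add]
    congr 1
    funext g
    have hc : (s : ℂ) / r - r / s ∈ O := sub_mem' hsrO hrsO
    rw [red_add (O.mul_mem _ _ hc (hwO g)) (hεO g), red_mul hc (hwO g), red_sub hsrO hrsO, hω2,
      sub_neg_eq_add]
  set z := rd O w - ω • rd O ε with hz
  have hezz : rd O ε * z = z := by
    rw [hz, mul_sub, mul_smul_comm, hee, hew]
  have hzc : ∀ x, z * x = x * z := by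
    intro x
    rw [hz, sub_mul, mul_sub, smul_mul_assoc, mul_smul_comm, hcw, hce]
  have hzz : z * z = 0 := by
    have e1 : z * z = rd O w * rd O w - (ω + ω) • rd O w + (ω * ω) • rd O ε := by
      rw [hz, sub_mul, mul_sub, mul_sub, smul_mul_assoc, mul_smul_comm, smul_mul_assoc,
        mul_smul_comm, hwe, hew, hee, smul_smul, add_smul]
      abel
    rw [e1, hww, hωω, neg_one_smul]
    abel
  have hOmφ : Om ε φ = 1 := by
    rw [hε, h.Om_ep hrs h.irr1, if_pos rfl, if_neg (h.ne hrs), add_zero]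
  have hOmψ : Om ε ψ = 1 := by
    rw [hε, h.Om_ep hrs h.irr2, if_pos rfl, if_neg (h.ne hrs).symm, zero_add]
  have hz0 : z ≠ 0 := by
    intro h0
    have h1 : ∀ g, red O (w g) = ω * red O (ε g) := by
      intro g
      have h2 : rd O w = ω • rd O ε := sub_eq_zero.mp h0
      unfold rd at h2
      rw [el_smul] at h2
      exact congrFun (el_inj h2) g
    have h3 : ∀ g, red O (ε g) = 0 := by
      intro g
      by_cases hg : g⁻¹ ∈ M
      · have h4 : w g = 0 := by
          rw [hw]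
          unfold wp TA
          rw [if_pos hg, mul_zero]
        have h5 := h1 g
        rw [h4, red_zero] at h5
        exact (mul_eq_zero.mp h5.symm).resolve_left hω0
      · have h4 : ε g = 0 := by
          rw [hε]
          unfold ep TB
          rw [if_neg hg, mul_zero]
        rw [h4, red_zero]
    have h6 := (red_Om h.irr1 h.ep_cl hεO).2
    rw [← hε, hOmφ, red_one] at h6
    simp only [h3, zero_mul, Finset.sum_const_zero] at h6
    exact one_ne_zero h6
  have hfew := few (O := O) (φ := φ) (ψ := ψ) h.ep_cl hεO (fun χ hχ h1 h2 => by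
    rw [h.Om_ep hrs hχ, if_neg h1, if_neg h2, add_zero])
  obtain ⟨a, ha, hdim, hX⟩ := central_bound (rd O ε) hee hce (rho (RF O) G) rho_isTr rho_nondeg z
    hz0 hezz hzc hzz hfew
  -- the dimension
  have hD : (((r ^ 2 + s ^ 2) * d ^ 2 : ℕ) : ℂ) = Nat.card G * ε 1 := by
    rw [hε]
    unfold ep TB
    rw [inv_one, if_pos h.one_mem, h.t_one]
    push_cast
    field_simp
  have hge := finrank_rd_ge ε hεO (h.ep_ep hrs) _ hD
  -- the divisibility
  have hdvd : ∀ (χ : G → ℂ) (N : ℕ), IsIrr χ → (N : ℂ) = χ 1 → Om ε χ = 1 → a ∣ N := by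
    intro χ N hχ hN hOm
    obtain ⟨Q, _, _, _, τ, h1, h2⟩ := exists_redmod O χ hχ
    have h3 := h2 ε hεO h.ep_cl
    rw [hOm, red_one, one_smul] at h3
    have h4 := hX Q τ h3
    have h5 : Module.finrank (RF O) Q = N := by
      rw [← hN] at h1
      exact_mod_cast h1
    rwa [h5] at h4
  have ha1 : a ∣ r * d := hdvd φ (r * d) h.irr1 (by rw [h.deg1]; push_cast; ring) hOmφ
  have ha2 : a ∣ s * d := hdvd ψ (s * d) h.irr2 (by rw [h.deg2]; push_cast; ring) hOmψ
  have ha3 : a ∣ d := by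
    have := Nat.dvd_gcd ha1 ha2
    rwa [Nat.gcd_mul_right, h.cop, one_mul] at this
  have ha4 : a ≤ d := Nat.le_of_dvd h.dpos ha3
  have h7 : (r ^ 2 + s ^ 2) * d ^ 2 ≤ 2 * d ^ 2 := by
    calc (r ^ 2 + s ^ 2) * d ^ 2 ≤ 2 * a ^ 2 := hge.trans hdim
      _ ≤ 2 * d ^ 2 := by gcongr
  have h8 : r ^ 2 + s ^ 2 ≤ 2 := Nat.le_of_mul_le_mul_right h7 (by have := h.dpos; positivity)
  have h9 : 1 ≤ r := h.rpos
  have h10 : 1 ≤ s := h.spos
  have h11 : r = s := by nlinarith
  exact hrs h11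

end Pr

end Pool.Agent.H515.SP
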