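import Pool.Agent.H515.SP.Cent
import Pool.Agent.H254R3.IN.PI

/-!
# The group algebra over the residue field
-/

set_option autoImplicit false
set_option linter.style.haveILetI false
set_option linter.unusedSectionVars false

open scoped BigOperators Classical
open Pool.Agent.H254R3.IN

noncomputable section

namespace Pool.Agent.H515.SP

section gen
variable {F G : Type} [Field F] [Group G] [Fintype G]

/-- element of the group algebra with given coefficients -/
def el (f : G → F) : MonoidAlgebra F G := ∑ g, MonoidAlgebra.single g (f g)

lemma coeff_el (f : G → F) (g : G) : (el f).coeff g = f g := by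
  unfold el
  rw [MonoidAlgebra.coeff_sum, Finsupp.finsetSum_apply]
  simp only [MonoidAlgebra.coeff_single, Finsupp.single_apply]
  simp

lemma el_coeff (x : MonoidAlgebra F G) : el (fun g => x.coeff g) = x := by
  apply MonoidAlgebra.coeff_injective
  ext g
  rw [coeff_el]

lemma el_inj {f h : G → F} (H : el f = el h) : f = h := by
  funext g
  rw [← coeff_el f, H, coeff_el]

/-- convolution over a field -/
def cv (f h : G → F) (g : G) : F := ∑ x, f x * h (x⁻¹ * g)

lemma el_mul (f h : G → F) : el f * el h = el (cv f h) := by
  unfold el cv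
  rw [Finset.sum_mul_sum]
  have : ∀ g : G, MonoidAlgebra.single g (∑ x, f x * h (x⁻¹ * g)) =
      ∑ x, MonoidAlgebra.single g (f x * h (x⁻¹ * g)) := fun g =>
    map_sum (MonoidAlgebra.singleAddHom g) _ _
  simp only [this]
  conv_rhs => rw [Finset.sum_comm]
  refine Finset.sum_congr rfl fun x _ => ?_
  refine Fintype.sum_equiv (Equiv.mulLeft x) _ _ fun g => ?_
  simp only [Equiv.coe_mulLeft, inv_mul_cancel_left, MonoidAlgebra.single_mul_single]

lemma el_add (f h : G → F) : el f + el h = el (fun g => f g + h g) := by
  apply MonoidAlgebra.coeff_injective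
  ext g
  rw [MonoidAlgebra.coeff_add, Finsupp.add_apply, coeff_el, coeff_el, coeff_el]

lemma el_smul (c : F) (f : G → F) : c • el f = el (fun g => c * f g) := by
  apply MonoidAlgebra.coeff_injective
  ext g
  rw [MonoidAlgebra.coeff_smul, Finsupp.smul_apply, coeff_el, coeff_el, smul_eq_mul]

lemma el_zero : el (fun _ : G => (0 : F)) = 0 := by
  apply MonoidAlgebra.coeff_injective
  ext g
  rw [coeff_el]
  rfl

end gen

end Pool.Agent.H515.SP
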