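import Mathlib

/-!
# Finite-dimensional algebras with a nondegenerate trace form and few trace forms

Step A: the semisimple quotient is a full matrix algebra.
-/

set_option autoImplicit false
set_option linter.style.haveILetI false

open scoped BigOperators Classical

noncomputable section

namespace Pool.Agent.H515.SP

/-- trace forms on an algebra -/
def IsTr {F A : Type} [Field F] [Ring A] [Algebra F A] (f : A →ₗ[F] F) : Prop :=
  ∀ x y, f (x * y) = f (y * x)

/-- three trace forms are linearly dependent -/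
def FewTr (F A : Type) [Field F] [Ring A] [Algebra F A] : Prop :=
  ∀ f g h : A →ₗ[F] F, IsTr f → IsTr g → IsTr h →
    ∃ a b c : F, (a ≠ 0 ∨ b ≠ 0 ∨ c ≠ 0) ∧ ∀ x, a * f x + b * g x + c * h x = 0

section
variable {F A : Type} [Field F] [Ring A] [Algebra F A]

/-- the trace form of a representation on matrices -/
def trOf {a : ℕ} (π : A →ₐ[F] Matrix (Fin a) (Fin a) F) : A →ₗ[F] F :=
  (Matrix.traceLinearMap (Fin a) F F).comp π.toLinearMap

lemma trOf_apply {a : ℕ} (π : A →ₐ[F] Matrix (Fin a) (Fin a) F) (x : A) :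
    trOf π x = Matrix.trace (π x) := rfl

lemma trOf_isTr {a : ℕ} (π : A →ₐ[F] Matrix (Fin a) (Fin a) F) : IsTr (trOf π) := by
  intro x y
  rw [trOf_apply, trOf_apply, map_mul, map_mul, Matrix.trace_mul_comm]

end

variable {F A : Type} [Field F] [IsAlgClosed F] [Ring A] [Algebra F A] [FiniteDimensional F A]

lemma central_nilp_mem (z : A) (hzc : ∀ x, z * x = x * z) (hzn : IsNilpotent z) :
    z ∈ Ring.jacobson A := by
  rw [← Ideal.jacobson_bot, Ideal.mem_jacobson_iff]
  intro y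
  have h1 : IsNilpotent (y * z) := by
    have hc : Commute y z := (hzc y).symm
    exact hc.isNilpotent_mul_left hzn
  have h2 : IsUnit (1 + y * z) := h1.isUnit_one_add
  obtain ⟨u, hu⟩ := h2
  refine ⟨(u⁻¹ : Aˣ), ?_⟩
  have h3 : ((u⁻¹ : Aˣ) : A) * (1 + y * z) = 1 := by rw [← hu]; exact u.inv_mul
  rw [Ideal.mem_bot, mul_assoc]
  rw [mul_add, mul_one] at h3
  rw [add_comm, h3, sub_self]

theorem exists_pi [Nontrivial A] (ρ : A →ₗ[F] F) (hρ : IsTr ρ)
    (hnd : ∀ x, (∀ y, ρ (x * y) = 0) → x = 0) (z : A) (hz0 : z ≠ 0)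
    (hzc : ∀ x, z * x = x * z) (hzn : IsNilpotent z) (hfew : FewTr F A) :
    ∃ (a : ℕ) (_ : NeZero a) (π : A →ₐ[F] Matrix (Fin a) (Fin a) F),
      Function.Surjective π ∧ ∀ x, π x = 0 → x ∈ Ring.jacobson A := by
  haveI : IsArtinianRing A := IsArtinianRing.of_finite F A
  obtain ⟨n, d, hd, ⟨e⟩⟩ :=
    IsSemisimpleRing.exists_algEquiv_pi_matrix_of_isAlgClosed F (A ⧸ Ring.jacobson A)
  have hzJ : z ∈ Ring.jacobson A := central_nilp_mem z hzc hzn
  let q : A →ₐ[F] (A ⧸ Ring.jacobson A) := Ideal.Quotient.mkₐ F (Ring.jacobson A)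
  have hqs : Function.Surjective q := Ideal.Quotient.mk_surjective
  have hq0 : ∀ x, q x = 0 ↔ x ∈ Ring.jacobson A := fun x => Ideal.Quotient.eq_zero_iff_mem
  let p : (i : Fin n) → A →ₐ[F] Matrix (Fin (d i)) (Fin (d i)) F := fun i =>
    (Pi.evalAlgHom F (fun i => Matrix (Fin (d i)) (Fin (d i)) F) i).comp
      ((e : (A ⧸ Ring.jacobson A) →ₐ[F] _).comp q)
  have hp : ∀ i x, p i x = e (q x) i := fun i x => rfl
  have hps : ∀ w : (Π i, Matrix (Fin (d i)) (Fin (d i)) F), ∃ x, ∀ i, p i x = w i := by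
    intro w
    obtain ⟨x, hx⟩ := hqs (e.symm w)
    exact ⟨x, fun i => by rw [hp, hx, e.apply_symm_apply]⟩
  have hn0 : n ≠ 0 := by
    rintro rfl
    have h1 : q 1 = 0 := e.injective (funext fun i => i.elim0)
    have h2 : (1 : A) ∈ Ring.jacobson A := (hq0 1).mp h1
    have h3 : (Ring.jacobson A) ≠ ⊤ := by
      rw [← Ideal.jacobson_bot]
      intro h
      rw [Ideal.jacobson_eq_top_iff] at h
      exact bot_ne_top h
    exact h3 ((Ideal.eq_top_iff_one _).mpr h2)
  have hpz : ∀ i x, trOf (p i) (z * x) = 0 := by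
    intro i x
    rw [trOf_apply, map_mul]
    have : p i z = 0 := by rw [hp, (hq0 z).mpr hzJ, map_zero]; rfl
    rw [this, zero_mul, Matrix.trace_zero]
  obtain ⟨y0, hy0⟩ : ∃ y, ρ (z * y) ≠ 0 := by
    by_contra h
    push Not at h
    exact hz0 (hnd z h)
  have hn1 : n = 1 := by
    by_contra hn1
    have h2 : 1 < n := by omega
    obtain ⟨i, j, hij⟩ : ∃ i j : Fin n, i ≠ j := ⟨⟨0, by omega⟩, ⟨1, h2⟩, by simp [Fin.ext_iff]⟩
    obtain ⟨a, b, c, hne, habc⟩ := hfew (trOf (p i)) (trOf (p j)) ρ (trOf_isTr _) (trOf_isTr _) hρ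
    have hc : c = 0 := by
      have h1 := habc (z * y0)
      rw [hpz, hpz, mul_zero, mul_zero, zero_add, zero_add] at h1
      exact (mul_eq_zero.mp h1).resolve_right hy0
    have key : ∀ k : Fin n, ∃ x, trOf (p k) x = 1 ∧ ∀ l, l ≠ k → trOf (p l) x = 0 := by
      intro k
      haveI := hd k
      obtain ⟨x, hx⟩ := hps (Pi.single k (Matrix.single 0 0 1))
      refine ⟨x, ?_, fun l hl => ?_⟩
      · rw [trOf_apply, hx, Pi.single_eq_same, Matrix.trace_single_eq_same]
      · rw [trOf_apply, hx, Pi.single_eq_of_ne hl, Matrix.trace_zero]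
    obtain ⟨x, hx1, hx2⟩ := key i
    obtain ⟨x', hx1', hx2'⟩ := key j
    have ha : a = 0 := by
      have h1 := habc x
      rw [hx1, hx2 j hij.symm, hc] at h1
      simpa using h1
    have hb : b = 0 := by
      have h1 := habc x'
      rw [hx1', hx2' i hij, hc] at h1
      simpa using h1
    rcases hne with h | h | h
    · exact h ha
    · exact h hb
    · exact h hc
  subst hn1
  refine ⟨d 0, hd 0, p 0, ?_, ?_⟩
  · intro w
    obtain ⟨x, hx⟩ := hps (fun i => if h : i = 0 then h ▸ w else 0)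
    refine ⟨x, ?_⟩
    rw [hx]
    simp
  · intro x hx
    rw [← hq0]
    apply e.injective
    rw [map_zero]
    funext i
    have : i = 0 := Subsingleton.elim _ _
    subst this
    exact hx

end Pool.Agent.H515.SP
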