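import Pool.Agent.H515.SP.RingA

/-!
# Lifting matrix units along the radical
-/

set_option autoImplicit false
set_option linter.style.haveILetI false

open scoped BigOperators Classical

noncomputable section

namespace Pool.Agent.H515.SP

variable {F A : Type} [Field F] [Ring A] [Algebra F A]

/-- a system `u i`, `v i` with `v i * u i = e`, `∑ u i * v i = 1`, `u i * v i` orthogonal -/
structure Units (A : Type) [Ring A] (a : ℕ) where
  /-- the idempotent -/
  e : A
  /-- first family -/
  u : Fin a → A
  /-- second family -/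
  v : Fin a → A
  idem : e * e = e
  ue : ∀ i, u i * e = u i
  ev : ∀ i, e * v i = v i
  vu : ∀ i, v i * u i = e
  vu_ne : ∀ i j, i ≠ j → v i * u j = 0
  sum : ∑ i, u i * v i = 1

lemma nilp_idem {R : Type} [Ring R] {x : R} (h : x * x = x) (hn : IsNilpotent x) : x = 0 := by
  obtain ⟨n, hn⟩ := hn
  have : ∀ k : ℕ, x ^ (k + 1) = x := by
    intro k
    induction k with
    | zero => simp
    | succ k ih => rw [pow_succ, ih, h]
  rcases n with _ | n
  · have h1 : (1 : R) = 0 := by simpa using hn
    rw [← one_mul x, h1, zero_mul]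
  · rw [this] at hn
    exact hn

theorem exists_units {a : ℕ} [NeZero a] (π : A →ₐ[F] Matrix (Fin a) (Fin a) F)
    (hπ : Function.Surjective π) (hker : ∀ x, π x = 0 → IsNilpotent x) :
    ∃ U : Units A a, π U.e = Matrix.single 0 0 1 ∧ U.u 0 = U.e ∧ U.v 0 = U.e := by
  have hker' : ∀ x ∈ RingHom.ker (π : A →+* Matrix (Fin a) (Fin a) F), IsNilpotent x :=
    fun x hx => hker x hx
  have hco : CompleteOrthogonalIdempotents
      (fun i : Fin a => (Matrix.single i i 1 : Matrix (Fin a) (Fin a) F)) := by
    refine ⟨⟨fun i => ?_, fun i j hij => ?_⟩, ?_⟩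
    · simp [IsIdempotentElem]
    · simp [hij]
    · ext i j
      simp only [Matrix.sum_apply, Matrix.single_apply, Matrix.one_apply]
      by_cases hij : i = j
      · subst hij
        simp
      · rw [if_neg hij]
        apply Finset.sum_eq_zero
        intro k _
        rw [if_neg]
        rintro ⟨h1, h2⟩
        exact hij (h1.symm.trans h2)
  obtain ⟨e, he, he'⟩ := hco.lift_of_isNilpotent_ker (f := (π : A →+* Matrix (Fin a) (Fin a) F)) hker'
    (fun i => (hπ _).imp fun x hx => hx)
  have hei : ∀ i, π (e i) = Matrix.single i i 1 := fun i => congrFun he' i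
  have hid : ∀ i, e i * e i = e i := fun i => he.idem i
  have hor : ∀ i j, i ≠ j → e i * e j = 0 := fun i j h => he.ortho h
  have key : ∀ i : Fin a, ∃ u v : A, u * e 0 = u ∧ e i * u = u ∧ e 0 * v = v ∧ v * e i = v ∧
      v * u = e 0 ∧ u * v = e i ∧ (i = 0 → u = e 0 ∧ v = e 0) := by
    intro i
    by_cases hi : i = 0
    · subst hi
      exact ⟨e 0, e 0, hid 0, hid 0, hid 0, hid 0, hid 0, hid 0, fun _ => ⟨rfl, rfl⟩⟩
    obtain ⟨x, hx⟩ := hπ (Matrix.single i 0 1)
    obtain ⟨y, hy⟩ := hπ (Matrix.single 0 i 1)
    set u := e i * x * e 0 with hu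
    set v' := e 0 * y * e i with hv'
    set k := e 0 - v' * u with hk
    have hπu : π u = Matrix.single i 0 1 := by
      rw [hu, map_mul, map_mul, hei, hei, hx]
      simp
    have hπv' : π v' = Matrix.single 0 i 1 := by
      rw [hv', map_mul, map_mul, hei, hei, hy]
      simp
    have hπk : π k = 0 := by
      rw [hk, map_sub, map_mul, hei, hπu, hπv']
      simp
    have hkn : IsNilpotent k := hker k hπk
    have hv'0 : e 0 * v' = v' := by rw [hv', ← mul_assoc, ← mul_assoc, hid]
    have hv'i : v' * e i = v' := by rw [hv', mul_assoc, hid]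
    have hui : e i * u = u := by rw [hu, ← mul_assoc, ← mul_assoc, hid]
    have hu0 : u * e 0 = u := by rw [hu, mul_assoc, hid]
    have hek : e 0 * k = k := by
      rw [hk, mul_sub, hid, ← mul_assoc, hv'0]
    have hke : k * e 0 = k := by
      rw [hk, sub_mul, hid, mul_assoc, hu0]
    obtain ⟨w, hw⟩ : IsUnit (1 - k) := hkn.isUnit_one_sub
    have hwl : ((w⁻¹ : Aˣ) : A) * (1 - k) = 1 := by rw [← hw]; exact w.inv_mul
    have hwr : (1 - k) * ((w⁻¹ : Aˣ) : A) = 1 := by rw [← hw]; exact w.mul_inv
    set w' : A := ((w⁻¹ : Aˣ) : A) with hw'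
    have hπw : π w' = 1 := by
      have := congrArg π hwl
      rw [map_mul, map_sub, hπk, map_one, sub_zero, mul_one] at this
      exact this
    have hcomm : e 0 * w' = w' * e 0 := by
      have h1 : (1 - k) * e 0 = e 0 * (1 - k) := by rw [sub_mul, mul_sub, hek, hke, one_mul, mul_one]
      calc e 0 * w' = w' * (1 - k) * (e 0 * w') := by rw [hwl, one_mul]
        _ = w' * ((1 - k) * e 0) * w' := by noncomm_ring
        _ = w' * (e 0 * (1 - k)) * w' := by rw [h1]
        _ = w' * e 0 * ((1 - k) * w') := by noncomm_ring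
        _ = w' * e 0 := by rw [hwr, mul_one]
    set v := w' * v' with hv
    have hvu : v * u = e 0 := by
      have h1 : v' * u = (1 - k) * e 0 := by
        rw [sub_mul, one_mul, hke, hk]
        abel
      rw [hv, mul_assoc, h1, ← mul_assoc, hwl, one_mul]
    have hev : e 0 * v = v := by
      rw [hv, ← mul_assoc, hcomm, mul_assoc, hv'0]
    have hvi : v * e i = v := by rw [hv, mul_assoc, hv'i]
    have hπv : π v = Matrix.single 0 i 1 := by rw [hv, map_mul, hπw, one_mul, hπv']
    have huv : u * v = e i := by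
      have h1 : e i - u * v = 0 := by
        apply nilp_idem
        · have h2 : u * v * (u * v) = u * v := by
            calc u * v * (u * v) = u * (v * u) * v := by noncomm_ring
              _ = u * v := by rw [hvu, hu0]
          have h3 : e i * (u * v) = u * v := by rw [← mul_assoc, hui]
          have h4 : u * v * e i = u * v := by rw [mul_assoc, hvi]
          rw [mul_sub, sub_mul, sub_mul, hid, h3, h4, h2]
          abel
        · apply hker
          rw [map_sub, map_mul, hei, hπu, hπv]
          simp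
      exact (sub_eq_zero.mp h1).symm
    exact ⟨u, v, hu0, hui, hev, hvi, hvu, huv, fun h => absurd h hi⟩
  choose u v h1 h2 h3 h4 h5 h6 h7 using key
  refine ⟨⟨e 0, u, v, hid 0, h1, h3, h5, ?_, ?_⟩, hei 0, (h7 0 rfl).1, (h7 0 rfl).2⟩
  · intro i j hij
    rw [← h4 i, ← h2 j, mul_assoc, ← mul_assoc (e i), hor i j hij, zero_mul, mul_zero]
  · rw [Finset.sum_congr rfl fun i _ => h6 i]
    exact he.complete

end Pool.Agent.H515.SP
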