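import Pool.Agent.H515.SP.RingB

/-!
# The corner has dimension at most two
-/

set_option autoImplicit false
set_option linter.style.haveILetI false

open scoped BigOperators Classical

noncomputable section

namespace Pool.Agent.H515.SP

variable {F A : Type} [Field F] [Ring A] [Algebra F A] {a : ℕ}

/-- the corner of `e` -/
def Cn (F : Type) [Field F] [Algebra F A] (U : Units A a) : Submodule F A where
  carrier := {x | U.e * x = x ∧ x * U.e = x}
  add_mem' := by
    rintro x y ⟨h1, h2⟩ ⟨h3, h4⟩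
    exact ⟨by rw [mul_add, h1, h3], by rw [add_mul, h2, h4]⟩
  zero_mem' := ⟨mul_zero _, zero_mul _⟩
  smul_mem' := by
    rintro c x ⟨h1, h2⟩
    exact ⟨by rw [mul_smul_comm, h1], by rw [smul_mul_assoc, h2]⟩

lemma mem_Cn {U : Units A a} {x : A} : x ∈ Cn F U ↔ U.e * x = x ∧ x * U.e = x := Iff.rfl

/-- the extension of a functional from the corner -/
def ext (U : Units A a) (f : A →ₗ[F] F) : A →ₗ[F] F :=
  ∑ i, f.comp ((LinearMap.mulRight F (U.u i)).comp (LinearMap.mulLeft F (U.v i)))

lemma ext_apply (U : Units A a) (f : A →ₗ[F] F) (x : A) :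
    ext U f x = ∑ i, f (U.v i * x * U.u i) := by
  simp [ext, LinearMap.sum_apply]

lemma vxu_mem (U : Units A a) (x : A) (i j : Fin a) : U.v i * x * U.u j ∈ Cn F U := by
  refine ⟨?_, ?_⟩
  · rw [← mul_assoc, ← mul_assoc, U.ev]
  · rw [mul_assoc, U.ue]

lemma ext_isTr (U : Units A a) (f : A →ₗ[F] F)
    (hf : ∀ x ∈ Cn F U, ∀ y ∈ Cn F U, f (x * y) = f (y * x)) : IsTr (ext U f) := by
  have h1 : ∀ x y, ext U f (x * y) =
      ∑ i, ∑ j, f ((U.v i * x * U.u j) * (U.v j * y * U.u i)) := by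
    intro x y
    rw [ext_apply]
    refine Finset.sum_congr rfl fun i _ => ?_
    rw [← map_sum]
    congr 1
    have h2 : U.v i * (x * y) * U.u i = U.v i * x * (∑ j, U.u j * U.v j) * y * U.u i := by
      rw [U.sum]
      noncomm_ring
    rw [h2, Finset.mul_sum, Finset.sum_mul, Finset.sum_mul]
    refine Finset.sum_congr rfl fun j _ => ?_
    noncomm_ring
  intro x y
  rw [h1, h1, Finset.sum_comm]
  refine Finset.sum_congr rfl fun i _ => Finset.sum_congr rfl fun j _ => ?_
  exact hf _ (vxu_mem U x j i) _ (vxu_mem U y i j)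

lemma ext_eq [NeZero a] (U : Units A a) (hu : U.u 0 = U.e) (hv : U.v 0 = U.e) (f : A →ₗ[F] F)
    {x : A} (hx : x ∈ Cn F U) : ext U f x = f x := by
  rw [ext_apply, Finset.sum_eq_single 0]
  · rw [hu, hv, hx.1, hx.2]
  · intro i _ hi
    have h1 : U.v i * x = 0 := by
      rw [← hx.1, ← mul_assoc, ← hu, U.vu_ne i 0 hi, zero_mul]
    rw [h1, zero_mul, map_zero]
  · intro h
    exact absurd (Finset.mem_univ _) h

end Pool.Agent.H515.SP
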