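import Pool.Agent.H515.SP.RingC

/-!
# The corner has dimension at most two
-/

set_option autoImplicit false
set_option linter.style.haveILetI false

open scoped BigOperators Classical

noncomputable section

namespace Pool.Agent.H515.SP

variable {F A : Type} [Field F] [Ring A] [Algebra F A] {a : ℕ}

/-- the radical of the corner -/
def Jz (U : Units A a) (π : A →ₐ[F] Matrix (Fin a) (Fin a) F) : Submodule F A :=
  Cn F U ⊓ LinearMap.ker π.toLinearMap

lemma mem_Jz {U : Units A a} {π : A →ₐ[F] Matrix (Fin a) (Fin a) F} {x : A} :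
    x ∈ Jz U π ↔ x ∈ Cn F U ∧ π x = 0 := Iff.rfl

lemma e_mem (U : Units A a) : U.e ∈ Cn F U := ⟨U.idem, U.idem⟩

lemma mul_mem_Cn {U : Units A a} {x y : A} (hx : x ∈ Cn F U) (hy : y ∈ Cn F U) :
    x * y ∈ Cn F U := by
  refine ⟨?_, ?_⟩
  · rw [← mul_assoc, hx.1]
  · rw [mul_assoc, hy.2]

lemma decomp [NeZero a] {U : Units A a} {π : A →ₐ[F] Matrix (Fin a) (Fin a) F}
    (he : π U.e = Matrix.single 0 0 1) {x : A} (hx : x ∈ Cn F U) :
    ∃ c : F, ∃ j ∈ Jz U π, x = c • U.e + j := by
  refine ⟨π x 0 0, x - (π x 0 0) • U.e, ⟨?_, ?_⟩, by abel⟩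
  · exact Submodule.sub_mem _ hx (Submodule.smul_mem _ _ (e_mem U))
  · change π (x - (π x 0 0) • U.e) = 0
    rw [map_sub, map_smul, he, sub_eq_zero]
    have h1 : π x = π U.e * π x * π U.e := by rw [← map_mul, ← map_mul, hx.1, hx.2]
    rw [he] at h1
    rw [h1]
    have h2 : (Matrix.single 0 0 1 : Matrix (Fin a) (Fin a) F) * π x * Matrix.single 0 0 1 =
        Matrix.single 0 0 (π x 0 0) := by
      rw [Matrix.single_mul_mul_single]
      simp
    rw [h2]
    simp

/-- if two functionals on the corner vanish at `e` and on products of radical elements, ... -/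
lemma two_dep [NeZero a] {U : Units A a} {π : A →ₐ[F] Matrix (Fin a) (Fin a) F}
    (hu : U.u 0 = U.e) (hv : U.v 0 = U.e)
    (he : π U.e = Matrix.single 0 0 1) (hfew : FewTr F A) :
    ∃ x ∈ Jz U π, Jz U π ≤ Submodule.span F {x} ⊔ Jz U π * Jz U π := by
  set J := Jz U π with hJ
  by_cases h0 : J ≤ J * J
  · exact ⟨0, J.zero_mem, h0.trans le_sup_right⟩
  obtain ⟨x, hx, hx'⟩ : ∃ x ∈ J, x ∉ J * J := by
    by_contra h
    push Not at h
    exact h0 h
  refine ⟨x, hx, ?_⟩
  intro y hy
  by_contra hy'
  have hJJ : J * J ≤ J := by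
    rw [Submodule.mul_le]
    rintro p ⟨hp1, hp2⟩ q ⟨hq1, hq2⟩
    refine ⟨mul_mem_Cn hp1 hq1, ?_⟩
    change π (p * q) = 0
    have h1 : π p = 0 := hp2
    rw [map_mul, h1, zero_mul]
  have hnz : ∀ c : F, ∀ j ∈ J, c • U.e + j ∈ J → c = 0 := by
    intro c j hj h
    have h1 : π (c • U.e + j) = 0 := h.2
    have h2 : π j = 0 := hj.2
    rw [map_add, map_smul, h2, add_zero, he] at h1
    have h3 := congrFun (congrFun h1 0) 0
    simpa using h3
  have hxW : x ∉ Submodule.span F {U.e} ⊔ J * J := by
    intro h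
    obtain ⟨p, hp, q, hq, hpq⟩ := Submodule.mem_sup.mp h
    obtain ⟨c, rfl⟩ := Submodule.mem_span_singleton.mp hp
    have hc : c = 0 := hnz c q (hJJ hq) (by rw [hpq]; exact hx)
    rw [hc, zero_smul, zero_add] at hpq
    exact hx' (hpq ▸ hq)
  have hyW : y ∉ (Submodule.span F {U.e} ⊔ J * J) ⊔ Submodule.span F {x} := by
    intro h
    obtain ⟨p, hp, q, hq, hpq⟩ := Submodule.mem_sup.mp h
    obtain ⟨d, rfl⟩ := Submodule.mem_span_singleton.mp hq
    obtain ⟨p', hp', q', hq', hpq'⟩ := Submodule.mem_sup.mp hp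
    obtain ⟨c, rfl⟩ := Submodule.mem_span_singleton.mp hp'
    have hc : c = 0 := hnz c (q' + d • x) (J.add_mem (hJJ hq') (J.smul_mem _ hx)) (by
      have : c • U.e + (q' + d • x) = y := by rw [← hpq, ← hpq']; abel
      rw [this]
      exact hy)
    rw [hc, zero_smul, zero_add] at hpq'
    apply hy'
    rw [← hpq, ← hpq', add_comm]
    exact Submodule.add_mem_sup (Submodule.smul_mem _ _ (Submodule.mem_span_singleton_self x)) hq'
  obtain ⟨f, hf1, hf2⟩ := Submodule.exists_le_ker_of_notMem hxW
  obtain ⟨g, hg1, hg2⟩ := Submodule.exists_le_ker_of_notMem hyW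
  have tr : ∀ f : A →ₗ[F] F, Submodule.span F {U.e} ⊔ J * J ≤ LinearMap.ker f →
      ∀ x ∈ Cn F U, ∀ y ∈ Cn F U, f (x * y) = f (y * x) := by
    intro f hf x hx y hy
    obtain ⟨c, j, hj, rfl⟩ := decomp he hx
    obtain ⟨c', j', hj', rfl⟩ := decomp he hy
    have h1 : f (j * j') = 0 := hf (Submodule.mem_sup_right (Submodule.mul_mem_mul hj hj'))
    have h2 : f (j' * j) = 0 := hf (Submodule.mem_sup_right (Submodule.mul_mem_mul hj' hj))
    have e1 : U.e * j = j := hj.1.1
    have e2 : j * U.e = j := hj.1.2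
    have e3 : U.e * j' = j' := hj'.1.1
    have e4 : j' * U.e = j' := hj'.1.2
    simp only [add_mul, mul_add, smul_mul_assoc, mul_smul_comm, e1, e2, e3, e4, map_add, map_smul,
      h1, h2, smul_eq_mul]
    ring
  have hfe : f U.e = 0 := hf2 (Submodule.mem_sup_left (Submodule.mem_span_singleton_self _))
  have hge : g U.e = 0 := hg2 (Submodule.mem_sup_left
    (Submodule.mem_sup_left (Submodule.mem_span_singleton_self _)))
  have hgx : g x = 0 := hg2 (Submodule.mem_sup_right (Submodule.mem_span_singleton_self _))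
  obtain ⟨α, β, γ, hne, h⟩ := hfew (ext U f) (ext U g) (trOf π) (ext_isTr U f (tr f hf2))
    (ext_isTr U g (tr g (le_sup_left.trans hg2))) (trOf_isTr π)
  have hγ : γ = 0 := by
    have := h U.e
    rw [ext_eq U hu hv f (e_mem U), ext_eq U hu hv g (e_mem U), hfe, hge, trOf_apply, he,
      Matrix.trace_single_eq_same] at this
    simpa using this
  have hπx : trOf π x = 0 := by
    have : π x = 0 := hx.2
    rw [trOf_apply, this, Matrix.trace_zero]
  have hα : α = 0 := by
    have := h x
    rw [ext_eq U hu hv f hx.1, ext_eq U hu hv g hx.1, hgx, hπx] at this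
    simp only [mul_zero, add_zero] at this
    exact (mul_eq_zero.mp this).resolve_right hf1
  have hβ : β = 0 := by
    have := h y
    rw [ext_eq U hu hv g hy.1, hα, hγ] at this
    simp only [zero_mul, zero_add, add_zero] at this
    exact (mul_eq_zero.mp this).resolve_right hg1
  rcases hne with h | h | h
  · exact h hα
  · exact h hβ
  · exact h hγ

/-- the radical of the corner is spanned by the powers of one element -/
lemma Jz_le {U : Units A a} {π : A →ₐ[F] Matrix (Fin a) (Fin a) F} {x : A}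
    (hx : x ∈ Jz U π) (h : Jz U π ≤ Submodule.span F {x} ⊔ Jz U π * Jz U π)
    (hnil : ∃ N : ℕ, (Jz U π) ^ (N + 1) = ⊥) :
    Jz U π ≤ Submodule.span F (Set.range fun k : ℕ => x ^ (k + 1)) := by
  set J := Jz U π with hJ
  set P := Submodule.span F (Set.range fun k : ℕ => x ^ (k + 1)) with hP
  have step : ∀ k : ℕ, J ^ (k + 1) ≤ Submodule.span F {x ^ (k + 1)} ⊔ J ^ (k + 2) := by
    intro k
    induction k with
    | zero =>
      rw [zero_add, pow_one, pow_one, pow_two]
      exact h
    | succ k ih =>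
      have hsx : Submodule.span F {x} ≤ J := by
        rw [Submodule.span_singleton_le_iff_mem]
        exact hx
      have hsxk : ∀ m : ℕ, Submodule.span F {x ^ m} ≤ J ^ m := by
        intro m
        rw [Submodule.span_singleton_le_iff_mem]
        exact Submodule.pow_mem_pow J hx m
      calc J ^ (k + 1 + 1) = J ^ (k + 1) * J := pow_succ _ _
        _ ≤ (Submodule.span F {x ^ (k + 1)} ⊔ J ^ (k + 2)) * (Submodule.span F {x} ⊔ J * J) :=
          mul_le_mul' ih h
        _ ≤ Submodule.span F {x ^ (k + 1 + 1)} ⊔ J ^ (k + 1 + 2) := by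
          rw [Submodule.sup_mul, Submodule.mul_sup, Submodule.mul_sup]
          refine sup_le (sup_le ?_ ?_) (sup_le ?_ ?_)
          · rw [Submodule.span_mul_span, Set.singleton_mul_singleton, ← pow_succ]
            exact le_sup_left
          · refine le_trans (mul_le_mul' (hsxk (k + 1)) le_rfl) ?_
            refine le_trans (le_of_eq ?_) le_sup_right
            rw [← pow_two, ← pow_add]
          · refine le_trans (mul_le_mul' le_rfl hsx) ?_
            refine le_trans (le_of_eq ?_) le_sup_right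
            rw [← pow_succ]
          · have hJJ : J * J ≤ J := by
              rw [Submodule.mul_le]
              rintro p ⟨hp1, hp2⟩ q ⟨hq1, hq2⟩
              refine ⟨mul_mem_Cn hp1 hq1, ?_⟩
              change π (p * q) = 0
              have h1 : π p = 0 := hp2
              rw [map_mul, h1, zero_mul]
            refine le_trans (mul_le_mul' le_rfl hJJ) ?_
            refine le_trans (le_of_eq ?_) le_sup_right
            rw [← pow_succ]
  have step2 : ∀ m : ℕ, J ≤ P ⊔ J ^ (m + 1) := by
    intro m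
    induction m with
    | zero => rw [zero_add, pow_one]; exact le_sup_right
    | succ m ih =>
      refine ih.trans (sup_le le_sup_left ((step m).trans (sup_le ?_ le_sup_right)))
      refine le_trans ?_ le_sup_left
      rw [Submodule.span_singleton_le_iff_mem]
      exact Submodule.subset_span ⟨m, rfl⟩
  obtain ⟨N, hN⟩ := hnil
  have := step2 N
  rwa [hN, sup_bot_eq] at this

/-- the corner is commutative -/
lemma corner_comm [NeZero a] {U : Units A a} {π : A →ₐ[F] Matrix (Fin a) (Fin a) F}
    (hu : U.u 0 = U.e) (hv : U.v 0 = U.e)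
    (he : π U.e = Matrix.single 0 0 1) (hfew : FewTr F A)
    (hnil : ∃ N : ℕ, (Jz U π) ^ (N + 1) = ⊥) :
    ∀ x ∈ Cn F U, ∀ y ∈ Cn F U, x * y = y * x := by
  obtain ⟨x, hx, h⟩ := two_dep hu hv he hfew
  have hle := Jz_le hx h hnil
  have hJ : ∀ p ∈ Jz U π, ∀ q ∈ Jz U π, p * q = q * p := by
    intro p hp q hq
    have h1 : ∀ k : ℕ, ∀ p ∈ Submodule.span F (Set.range fun k : ℕ => x ^ (k + 1)),
        p * x ^ (k + 1) = x ^ (k + 1) * p := by
      intro k p hp
      induction hp using Submodule.span_induction with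
      | mem p hp =>
        obtain ⟨m, rfl⟩ := hp
        change x ^ (m + 1) * x ^ (k + 1) = x ^ (k + 1) * x ^ (m + 1)
        rw [← pow_add, ← pow_add, add_comm]
      | zero => rw [zero_mul, mul_zero]
      | add p q _ _ hp hq => rw [add_mul, mul_add, hp, hq]
      | smul c p _ hp => rw [smul_mul_assoc, mul_smul_comm, hp]
    have h2 : ∀ q ∈ Submodule.span F (Set.range fun k : ℕ => x ^ (k + 1)), p * q = q * p := by
      intro q hq
      induction hq using Submodule.span_induction with
      | mem q hq =>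
        obtain ⟨m, rfl⟩ := hq
        exact h1 m p (hle hp)
      | zero => rw [zero_mul, mul_zero]
      | add q r _ _ hq hr => rw [add_mul, mul_add, hq, hr]
      | smul c q _ hq => rw [smul_mul_assoc, mul_smul_comm, hq]
    exact h2 q (hle hq)
  intro y hy z hz
  obtain ⟨c, j, hj, rfl⟩ := decomp he hy
  obtain ⟨c', j', hj', rfl⟩ := decomp he hz
  have e1 : U.e * j = j := hj.1.1
  have e2 : j * U.e = j := hj.1.2
  have e3 : U.e * j' = j' := hj'.1.1
  have e4 : j' * U.e = j' := hj'.1.2
  simp only [add_mul, mul_add, smul_mul_assoc, mul_smul_comm, e1, e2, e3, e4, hJ j hj j' hj',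
    smul_add]
  rw [smul_comm c' c]
  abel

end Pool.Agent.H515.SP
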