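import Pool.Agent.H515.SP.RingD

/-!
# Algebras with few trace forms: the dimension bound
-/

set_option autoImplicit false
set_option linter.style.haveILetI false

open scoped BigOperators Classical

noncomputable section

namespace Pool.Agent.H515.SP

variable {F A : Type} [Field F] [Ring A] [Algebra F A] {a : ℕ}

lemma corner_finrank [FiniteDimensional F A] [NeZero a] {U : Units A a}
    (hu : U.u 0 = U.e) (hv : U.v 0 = U.e) (hfew : FewTr F A)
    (hcomm : ∀ x ∈ Cn F U, ∀ y ∈ Cn F U, x * y = y * x) :
    Module.finrank F (Cn F U) ≤ 2 := by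
  by_contra hcon
  have h3 : 3 ≤ Module.finrank F (Cn F U) := by omega
  obtain ⟨c, hc⟩ := exists_linearIndependent_of_le_finrank h3
  have hc' : LinearIndependent F (fun i => (c i : A)) :=
    hc.map' (Cn F U).subtype (Submodule.ker_subtype _)
  -- dual functionals
  have hdual : ∀ i : Fin 3, ∃ f : A →ₗ[F] F, f (c i) = 1 ∧ ∀ j, j ≠ i → f (c j) = 0 := by
    intro i
    have h1 : (c i : A) ∉ Submodule.span F ((fun i => (c i : A)) '' {j | j ≠ i}) := by
      have := hc'.notMem_span_image (s := {j | j ≠ i}) (x := i) (by simp)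
      exact this
    obtain ⟨f, hf1, hf2⟩ := Submodule.exists_le_ker_of_notMem h1
    refine ⟨(f (c i))⁻¹ • f, by simp [hf1], fun j hj => ?_⟩
    have : f (c j) = 0 := hf2 (Submodule.subset_span ⟨j, hj, rfl⟩)
    simp [this]
  choose f hf1 hf2 using hdual
  have htr : ∀ i, IsTr (ext U (f i)) := fun i => ext_isTr U (f i) fun x hx y hy => by
    rw [hcomm x hx y hy]
  have hev : ∀ i j, ext U (f i) (c j) = f i (c j) := fun i j => ext_eq U hu hv (f i) (c j).2
  obtain ⟨α, β, γ, hne, h⟩ := hfew _ _ _ (htr 0) (htr 1) (htr 2)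
  have h0 := h (c 0)
  have h1 := h (c 1)
  have h2 := h (c 2)
  rw [hev, hev, hev, hf1, hf2 1 0 (by decide), hf2 2 0 (by decide)] at h0
  rw [hev, hev, hev, hf1, hf2 0 1 (by decide), hf2 2 1 (by decide)] at h1
  rw [hev, hev, hev, hf1, hf2 0 2 (by decide), hf2 1 2 (by decide)] at h2
  simp only [mul_one, mul_zero, add_zero, zero_add] at h0 h1 h2
  rcases hne with h | h | h
  · exact h h0
  · exact h h1
  · exact h h2

lemma finrank_le [FiniteDimensional F A] (U : Units A a) :
    Module.finrank F A ≤ a ^ 2 * Module.finrank F (Cn F U) := by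
  let L : A →ₗ[F] (Fin a × Fin a → Cn F U) :=
    { toFun := fun x ij => ⟨U.v ij.1 * x * U.u ij.2, vxu_mem U x ij.1 ij.2⟩
      map_add' := fun x y => by
        funext ij
        apply Subtype.ext
        simp [mul_add, add_mul]
      map_smul' := fun c x => by
        funext ij
        apply Subtype.ext
        simp }
  have hL : Function.Injective L := by
    rw [injective_iff_map_eq_zero]
    intro x hx
    have h1 : ∀ i j, U.v i * x * U.u j = 0 := fun i j =>
      congrArg Subtype.val (congrFun hx (i, j))
    calc x = (∑ i, U.u i * U.v i) * x * (∑ j, U.u j * U.v j) := by rw [U.sum, one_mul, mul_one]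
      _ = ∑ i, ∑ j, U.u i * (U.v i * x * U.u j) * U.v j := by
        rw [Finset.sum_mul, Finset.sum_mul_sum]
        refine Finset.sum_congr rfl fun i _ => Finset.sum_congr rfl fun j _ => ?_
        noncomm_ring
      _ = 0 := by
        simp [h1]
  have h2 := LinearMap.finrank_le_finrank_of_injective hL
  rw [Module.finrank_pi_fintype] at h2
  simp only [Finset.sum_const, Finset.card_univ, Fintype.card_prod, Fintype.card_fin,
    smul_eq_mul] at h2
  rw [pow_two]
  exact h2

lemma dvd_finrank (U : Units A a) (X : Type) [AddCommGroup X] [Module F X]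
    [FiniteDimensional F X] (τ : A →ₐ[F] Module.End F X) : a ∣ Module.finrank F X := by
  have hmul : ∀ x y w, τ x (τ y w) = τ (x * y) w := fun x y w => by
    rw [map_mul]; rfl
  let R := LinearMap.range (τ U.e)
  have hR : ∀ w ∈ R, τ U.e w = w := by
    rintro w ⟨y, rfl⟩
    rw [hmul, U.idem]
  let E : X ≃ₗ[F] (Fin a → R) :=
    { toFun := fun x i => ⟨τ (U.v i) x, ⟨τ (U.v i) x, by rw [hmul, U.ev]⟩⟩
      map_add' := fun x y => by
        funext i
        apply Subtype.ext
        simp
      map_smul' := fun c x => by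
        funext i
        apply Subtype.ext
        simp
      invFun := fun w => ∑ i, τ (U.u i) (w i)
      left_inv := fun x => by
        change ∑ i, τ (U.u i) (τ (U.v i) x) = x
        simp only [hmul]
        rw [← LinearMap.sum_apply, ← map_sum, U.sum, map_one]
        rfl
      right_inv := fun w => by
        funext i
        apply Subtype.ext
        change τ (U.v i) (∑ j, τ (U.u j) (w j)) = w i
        rw [map_sum, Finset.sum_eq_single i]
        · rw [hmul, U.vu, hR _ (w i).2]
        · intro j _ hj
          rw [hmul, U.vu_ne i j hj.symm, map_zero]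
          rfl
        · intro h
          exact absurd (Finset.mem_univ _) h }
  have h1 := E.finrank_eq
  rw [Module.finrank_pi_fintype] at h1
  simp only [Finset.sum_const, Finset.card_univ, Fintype.card_fin, smul_eq_mul] at h1
  exact ⟨_, h1⟩

/-- **The ring theoretic theorem.** Let `A ≠ 0` be a finite-dimensional algebra over an
algebraically closed field with a nondegenerate trace form, a nonzero central nilpotent element and
at most two linearly independent trace forms. Then for some `a ≥ 1` the dimension of `A` is at most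
`2 a²` and `a` divides the dimension of every module. -/
theorem ring_bound [IsAlgClosed F] [FiniteDimensional F A] [Nontrivial A] (ρ : A →ₗ[F] F)
    (hρ : IsTr ρ) (hnd : ∀ x, (∀ y, ρ (x * y) = 0) → x = 0) (z : A) (hz0 : z ≠ 0)
    (hzc : ∀ x, z * x = x * z) (hzn : IsNilpotent z) (hfew : FewTr F A) :
    ∃ a : ℕ, 0 < a ∧ Module.finrank F A ≤ 2 * a ^ 2 ∧
      ∀ (X : Type) [AddCommGroup X] [Module F X] [FiniteDimensional F X],
        (A →ₐ[F] Module.End F X) → a ∣ Module.finrank F X := by
  obtain ⟨a, ha, π, hπ, hker⟩ := exists_pi ρ hρ hnd z hz0 hzc hzn hfew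
  haveI : IsArtinianRing A := IsArtinianRing.of_finite F A
  obtain ⟨N, hN⟩ : IsNilpotent (Ring.jacobson A) := IsSemiprimaryRing.isNilpotent
  have hnilp : ∀ x ∈ Ring.jacobson A, IsNilpotent x := by
    intro x hx
    refine ⟨N, ?_⟩
    have := Ideal.pow_mem_pow hx N
    rw [hN] at this
    exact this
  obtain ⟨U, he, hu, hv⟩ := exists_units π hπ fun x hx => hnilp x (hker x hx)
  have hnil : ∃ N : ℕ, (Jz U π) ^ (N + 1) = ⊥ := by
    refine ⟨N, ?_⟩
    have h1 : ∀ k : ℕ, ∀ x ∈ (Jz U π) ^ k, x ∈ (Ring.jacobson A) ^ k := by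
      intro k
      induction k with
      | zero =>
        intro x _
        rw [Submodule.pow_zero, Ideal.one_eq_top]
        trivial
      | succ k ih =>
        intro x hx
        rw [Submodule.pow_succ] at hx ⊢
        induction hx using Submodule.mul_induction_on' with
        | mem_mul_mem p hp q hq => exact Ideal.mul_mem_mul (ih p hp) (hker q hq.2)
        | add p _ q _ hp hq => exact Ideal.add_mem _ hp hq
    rw [eq_bot_iff]
    intro x hx
    have h2 := h1 _ x hx
    rw [Submodule.pow_succ, hN] at h2
    have h3 : ((0 : Ideal A) * Ring.jacobson A) = ⊥ := Submodule.bot_mul _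
    rw [h3] at h2
    exact h2
  have hcomm := corner_comm hu hv he hfew hnil
  have h2 := corner_finrank hu hv hfew hcomm
  refine ⟨a, Nat.pos_of_ne_zero (NeZero.ne a), ?_, fun X _ _ _ τ => dvd_finrank U X τ⟩
  calc Module.finrank F A ≤ a ^ 2 * Module.finrank F (Cn F U) := finrank_le U
    _ ≤ a ^ 2 * 2 := Nat.mul_le_mul_left _ h2
    _ = 2 * a ^ 2 := mul_comm _ _

end Pool.Agent.H515.SP
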